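import Pool.Agent.H38.GR.Down

/-! Growth rates of the wreath product. -/

namespace Pool.Agent.H38.GR

open Finset Filter Topology

set_option linter.unusedSectionVars false
set_option linter.unusedVariables false

/-- configurations -/
abbrev Conf (R : ℕ) := (ZMod R → ZMod 2) × (Sp R → ZMod 2) × (Sp R → ZMod 2)

lemma ZZ_conf (R l : ℕ) [NeZero R] (x : ℝ) :
    ZZ R l x = ∑ y : Conf R, x ^ viol R l y.1 y.2.1 y.2.2 := by
  unfold ZZ
  rw [Fintype.sum_prod_type]
  refine Finset.sum_congr rfl fun c _ => ?_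
  rw [Fintype.sum_prod_type]

lemma viol_le_card (R l : ℕ) [NeZero R] (c : ZMod R → ZMod 2) (s β : Sp R → ZMod 2) :
    viol R l c s β ≤ 2 * R := by
  unfold viol
  refine (Finset.card_filter_le _ _).trans ?_
  rw [Finset.card_univ, card_Sp]

lemma el_inj (R l : ℕ) [NeZero R] :
    Function.Injective (fun y : Conf R => el R l y.1 y.2.1 y.2.2) := by
  rintro ⟨c, s, β⟩ ⟨c', s', β'⟩ h
  simp only at h
  have h1 := cOf_el R l c s β
  have h2 := sOf_el R l c s β
  have h3 := bOf_el R l c s β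
  rw [h, cOf_el] at h1
  rw [h, sOf_el] at h2
  rw [h, bOf_el] at h3
  rw [h1, h2, h3]

open Classical in
lemma lower_count (R l : ℕ) [NeZero R] {x y : ℝ} (hx : 0 < x) (hy : 0 < y) (hxy : x * y ≤ 1)
    (hb : ∀ n, R ≤ n → ((ball (gen l) n).ncard : ℝ) ≤ y ^ n) :
    x ^ (R + (l + 1)) * ZZ R l x ≤ (3 * R + (l + 2)) * (x * y) ^ R := by
  have e1 : x ^ (R + (l + 1)) * ZZ R l x =
      ∑ z : Conf R, x ^ (R + viol R l z.1 z.2.1 z.2.2 + (l + 1)) := by
    rw [ZZ_conf, Finset.mul_sum]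
    refine Finset.sum_congr rfl fun z _ => ?_
    rw [← pow_add]; congr 1; ring
  rw [e1]
  have e2 := Finset.sum_fiberwise_of_maps_to (s := (Finset.univ : Finset (Conf R)))
    (t := Finset.Ico R (R + (2 * R + (l + 2))))
    (g := fun z => R + viol R l z.1 z.2.1 z.2.2 + (l + 1)) (by
      intro z _
      have := viol_le_card R l z.1 z.2.1 z.2.2
      rw [Finset.mem_Ico]
      omega) (fun z => x ^ (R + viol R l z.1 z.2.1 z.2.2 + (l + 1)))
  rw [← e2]
  have e3 : ∀ n ∈ Finset.Ico R (R + (2 * R + (l + 2))),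
      ∑ z ∈ Finset.univ.filter (fun z : Conf R => R + viol R l z.1 z.2.1 z.2.2 + (l + 1) = n),
        x ^ (R + viol R l z.1 z.2.1 z.2.2 + (l + 1)) ≤ (x * y) ^ R := by
    intro n hn
    rw [Finset.mem_Ico] at hn
    have e4 : ∑ z ∈ Finset.univ.filter (fun z : Conf R => R + viol R l z.1 z.2.1 z.2.2 + (l + 1) = n),
        x ^ (R + viol R l z.1 z.2.1 z.2.2 + (l + 1)) =
        ((Finset.univ.filter (fun z : Conf R =>
          R + viol R l z.1 z.2.1 z.2.2 + (l + 1) = n)).card : ℝ) * x ^ n := by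
      rw [Finset.sum_congr rfl (g := fun _ => x ^ n), Finset.sum_const, nsmul_eq_mul]
      intro z hz
      rw [(Finset.mem_filter.1 hz).2]
    rw [e4]
    have e5 : (Finset.univ.filter (fun z : Conf R =>
        R + viol R l z.1 z.2.1 z.2.2 + (l + 1) = n)).card ≤ (ball (gen l) n).ncard := by
      rw [← Finset.card_image_of_injective _ (el_inj R l), ← Set.ncard_coe_finset]
      refine Set.ncard_le_ncard ?_ (ball_finite _ n)
      intro g hg
      rw [Finset.mem_coe, Finset.mem_image] at hg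
      obtain ⟨z, hz, rfl⟩ := hg
      rw [← (Finset.mem_filter.1 hz).2]
      exact el_ball R l _ _ _
    calc ((Finset.univ.filter (fun z : Conf R =>
          R + viol R l z.1 z.2.1 z.2.2 + (l + 1) = n)).card : ℝ) * x ^ n
        ≤ y ^ n * x ^ n := by
          refine mul_le_mul_of_nonneg_right ?_ (by positivity)
          exact (by exact_mod_cast e5 : ((Finset.univ.filter (fun z : Conf R =>
            R + viol R l z.1 z.2.1 z.2.2 + (l + 1) = n)).card : ℝ) ≤ (ball (gen l) n).ncard).trans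
            (hb n hn.1)
      _ = (x * y) ^ n := by rw [mul_pow]; ring
      _ ≤ (x * y) ^ R := pow_le_pow_of_le_one (by positivity) hxy hn.1
  refine (Finset.sum_le_sum e3).trans ?_
  rw [Finset.sum_const, nsmul_eq_mul, Nat.card_Ico]
  refine mul_le_mul_of_nonneg_right ?_ (by positivity)
  have : R + (2 * R + (l + 2)) - R = 2 * R + (l + 2) := by omega
  rw [this]
  push_cast
  have : (0 : ℝ) ≤ R := Nat.cast_nonneg R
  linarith

lemma rate_ge (l : ℕ) (hl : 0 < l) {ρ : ℝ} (h0 : 0 < ρ) (h1 : ρ ≤ 1) (hx : 0 < 2 * ρ ^ 2 - 1)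
    (hA : 1 ≤ (8 * (2 * ρ ^ 2 - 1) * (1 + ρ) ^ 2) ^ (l + 1) *
      (1 + ((1 - ρ) / (1 + ρ) / 2) ^ (l + 1))) {r : ℝ} (hr : IsGrowthRate (gen l) r) :
    1 / (2 * ρ ^ 2 - 1) ≤ r := by
  by_contra hlt
  push Not at hlt
  set x := 2 * ρ ^ 2 - 1 with hxdef
  obtain ⟨y, hy1, hy2⟩ := exists_between (max_lt hlt (by positivity : (0 : ℝ) < 1 / x))
  have hyr : r < y := (le_max_left _ _).trans_lt hy1
  have hy0 : 0 < y := (le_max_right _ _).trans_lt hy1
  have hxy : x * y < 1 := by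
    rw [lt_div_iff₀ hx] at hy2; linarith
  obtain ⟨n₀, hn₀⟩ := eventually_atTop.1 (hr.eventually_le hyr)
  -- the right hand side tends to zero
  have hq0 : 0 ≤ x * y := by positivity
  have t1 : Tendsto (fun n : ℕ => (n : ℝ) * (x * y) ^ n) atTop (𝓝 0) :=
    tendsto_self_mul_const_pow_of_lt_one hq0 hxy
  have t2 : Tendsto (fun n : ℕ => (x * y) ^ n) atTop (𝓝 0) :=
    tendsto_pow_atTop_nhds_zero_of_lt_one hq0 hxy
  have t3 : Tendsto (fun n : ℕ => (3 * (n : ℝ) + (l + 2)) * (x * y) ^ n) atTop (𝓝 0) := by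
    have := (t1.const_mul 3).add (t2.const_mul ((l : ℝ) + 2))
    simp only [mul_zero, add_zero] at this
    refine this.congr fun n => ?_
    ring
  have hxl : 0 < x ^ (l + 1) := by positivity
  obtain ⟨n₁, hn₁⟩ := eventually_atTop.1 (t3.eventually_lt_const hxl)
  set K := n₀ + n₁ + 1 with hK
  set R := K * (l + 1) with hR
  have hKR : K ≤ R := Nat.le_mul_of_pos_right K (Nat.succ_pos l)
  have : NeZero R := ⟨by omega⟩
  have hRn0 : n₀ ≤ R := by omega
  have hRn1 : n₁ ≤ R := by omega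
  have c1 := lower_count R l hx hy0 hxy.le (fun n hn => hn₀ n (hRn0.trans hn))
  have c2 := hn₁ R hRn1
  have c3 := ZZ_lower R l K hR hl h0 h1
  rw [← hxdef] at c3
  have c4 : x ^ (l + 1) ≤ x ^ (R + (l + 1)) * ZZ R l x := by
    have c5 : x ^ R * ((8 * (1 + ρ) ^ 2) ^ R * (1 + ((1 - ρ) / (1 + ρ) / 2) ^ (l + 1)) ^ K) =
        ((8 * x * (1 + ρ) ^ 2) ^ (l + 1) *
      (1 + ((1 - ρ) / (1 + ρ) / 2) ^ (l + 1))) ^ K := by
      rw [← mul_assoc, ← mul_pow, mul_pow ((8 * x * (1 + ρ) ^ 2) ^ (l + 1)), ← pow_mul,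
        show (l + 1) * K = R by rw [hR]; ring]
      congr 2
      ring
    have c6 : 1 ≤ x ^ R * ZZ R l x := by
      refine le_trans ?_ (mul_le_mul_of_nonneg_left c3 (by positivity))
      rw [c5]
      exact one_le_pow₀ hA
    calc x ^ (l + 1) = x ^ (l + 1) * 1 := (mul_one _).symm
      _ ≤ x ^ (l + 1) * (x ^ R * ZZ R l x) := mul_le_mul_of_nonneg_left c6 hxl.le
      _ = x ^ (R + (l + 1)) * ZZ R l x := by rw [pow_add x R (l + 1)]; ring
  linarith

/-- elements with a given record of the support -/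
def XX (l n P p q : ℕ) (g : Lamp) : Prop :=
  g.p = P ∧ (∀ j, g.f j ≠ 0 → -(p : ℤ) - 1 ≤ j ∧ j ≤ P + q + l) ∧
    P + 2 * p + 2 * q + viol (P + 1) l (cOf (P + 1) g.f) (sOf (P + 1) g.f) (bOf (P + 1) g.f) ≤
        n + (l + 3)

/-- the sites outside of the interval -/
noncomputable def outs (l P p q : ℕ) : Finset ℤ := Finset.Icc (-(p : ℤ) - 1) (P + q + l) \ Finset.Icc 0 (P : ℤ)

lemma card_outs (l P p q : ℕ) : (outs l P p q).card = p + q + l + 1 := by
  unfold outs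
  rw [Finset.card_sdiff_of_subset]
  · rw [Int.card_Icc, Int.card_Icc]; omega
  · intro i hi
    rw [Finset.mem_Icc] at hi ⊢
    omega

/-- the data of an element -/
noncomputable def dat (l P p q : ℕ) (g : Lamp) : Conf (P + 1) × (outs l P p q → V) :=
  ((cOf (P + 1) g.f, sOf (P + 1) g.f, bOf (P + 1) g.f), fun i => g.f i)

lemma dat_inj (l n P p q : ℕ) {g g' : Lamp} (h : XX l n P p q g) (h' : XX l n P p q g')
    (e : dat l P p q g = dat l P p q g') : g = g' := by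
  simp only [dat, Prod.mk.injEq] at e
  obtain ⟨⟨ec, es, eb⟩, eo⟩ := e
  refine Lamp.ext (Finsupp.ext fun j => ?_) (by rw [h.1, h'.1])
  by_cases hj : j ∈ Finset.Icc 0 (P : ℤ)
  · rw [Finset.mem_Icc] at hj
    obtain ⟨i, rfl⟩ := Int.eq_ofNat_of_zero_le hj.1
    have hi : i < P + 1 := by omega
    have hv : ((i : ℕ) : ZMod (P + 1)).val = i := ZMod.val_natCast_of_lt hi
    funext t
    have e2 := congrFun ec (i : ZMod (P + 1))
    have e0 := congrFun es ((i : ZMod (P + 1)), true)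
    have e1 := congrFun es ((i : ZMod (P + 1)), false)
    have e3 := congrFun eb ((i : ZMod (P + 1)), true)
    have e4 := congrFun eb ((i : ZMod (P + 1)), false)
    simp only [cOf, sOf, bOf, if_true, Bool.false_eq_true, if_false, hv] at e0 e1 e2 e3 e4
    fin_cases t
    · exact e0
    · exact e1
    · exact e2
    · exact e3
    · exact e4
  · by_cases hj' : j ∈ outs l P p q
    · exact congrFun eo ⟨j, hj'⟩
    · have hout : ¬ (-(p : ℤ) - 1 ≤ j ∧ j ≤ P + q + l) := by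
        intro h1
        apply hj'
        rw [outs, Finset.mem_sdiff]
        exact ⟨Finset.mem_Icc.2 h1, hj⟩
      have z1 : g.f j = 0 := by
        by_contra h2; exact hout (h.2.1 j h2)
      have z2 : g'.f j = 0 := by
        by_contra h2; exact hout (h'.2.1 j h2)
      rw [z1, z2]

open Classical in
lemma XX_count (l n P p q : ℕ) {x : ℝ} (hx : 0 < x) (hx1 : x ≤ 1) (A : Finset Lamp)
    (hA : ∀ g ∈ A, XX l n P p q g) :
    (A.card : ℝ) * x ^ (n + (l + 3)) ≤
      x ^ (P + 2 * p + 2 * q) * (32 ^ (p + q + l + 1) * ZZ (P + 1) l x) := by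
  have e1 : (A.card : ℝ) * x ^ (n + (l + 3)) ≤ ∑ g ∈ A, x ^ (P + 2 * p + 2 * q) *
      x ^ viol (P + 1) l (cOf (P + 1) g.f) (sOf (P + 1) g.f) (bOf (P + 1) g.f) := by
    rw [← nsmul_eq_mul, ← Finset.sum_const]
    refine Finset.sum_le_sum fun g hg => ?_
    rw [← pow_add]
    exact pow_le_pow_of_le_one hx.le hx1 (hA g hg).2.2
  refine e1.trans ?_
  rw [← Finset.mul_sum]
  refine mul_le_mul_of_nonneg_left ?_ (by positivity)
  have e2 : ∑ g ∈ A, x ^ viol (P + 1) l (cOf (P + 1) g.f) (sOf (P + 1) g.f) (bOf (P + 1) g.f) =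
      ∑ y ∈ A.image (dat l P p q), x ^ viol (P + 1) l y.1.1 y.1.2.1 y.1.2.2 := by
    rw [Finset.sum_image]
    · rfl
    · intro g hg g' hg' h
      exact dat_inj l n P p q (hA g hg) (hA g' hg') h
  rw [e2]
  refine (Finset.sum_le_sum_of_subset_of_nonneg (Finset.subset_univ _)
    (fun _ _ _ => by positivity)).trans (le_of_eq ?_)
  rw [Fintype.sum_prod_type, ZZ_conf, Finset.mul_sum]
  refine Finset.sum_congr rfl fun z _ => ?_
  simp only [Finset.sum_const, nsmul_eq_mul, Finset.card_univ, Fintype.card_fun, Fintype.card_coe,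
    card_outs, ZMod.card, Fintype.card_fin]
  norm_num

open Classical in
lemma upper_count (l n : ℕ) {x C : ℝ} (hx : 0 < x) (hx1 : x ≤ 1) (hx2 : 32 * x ^ 2 ≤ 1)
    (hC : ∀ P : ℕ, x ^ (P + 1) * ZZ (P + 1) l x ≤ C) :
    ((ball (gen l) n).ncard : ℝ) ≤ 2 * (((n : ℝ) + (l + 4)) ^ 3 *
      (C / x * 32 ^ (l + 1) / x ^ (n + (l + 3)))) := by
  set B := (ball_finite (gen l) n).toFinset with hB
  have hBm : ∀ g, g ∈ B ↔ g ∈ ball (gen l) n := fun g => Set.Finite.mem_toFinset _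
  have hBc : (ball (gen l) n).ncard = B.card := Set.ncard_eq_toFinset_card _ _
  set Bp := B.filter (fun g => 0 ≤ g.p) with hBp
  set Bn := B.filter (fun g => ¬ 0 ≤ g.p) with hBn
  have h1 : B.card = Bp.card + Bn.card := (Finset.card_filter_add_card_filter_not _).symm
  have h2 : Bn.card ≤ Bp.card := by
    refine Finset.card_le_card_of_injOn (fun g => g⁻¹) ?_ (fun a _ b _ h => inv_injective h)
    intro g hg
    rw [Finset.mem_coe, hBn, Finset.mem_filter, hBm] at hg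
    rw [Finset.mem_coe, hBp, Finset.mem_filter, hBm]
    refine ⟨inv_mem_ball _ hg.1, ?_⟩
    rw [inv_p]; omega
  -- cover by the sets `XX`
  set I := (range (n + (l + 4))) ×ˢ ((range (n + (l + 4))) ×ˢ (range (n + (l + 4)))) with hI
  have h3 : Bp ⊆ I.biUnion fun t => B.filter (fun g => XX l n t.1 t.2.1 t.2.2 g) := by
    intro g hg
    rw [hBp, Finset.mem_filter] at hg
    obtain ⟨P, hP⟩ := Int.eq_ofNat_of_zero_le hg.2
    obtain ⟨n', hn', ht⟩ := tr_of_ball ((hBm g).1 hg.1)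
    obtain ⟨p, q, hs, hle⟩ := up ht hP
    rw [Finset.mem_biUnion]
    refine ⟨(P, p, q), ?_, ?_⟩
    · rw [hI, Finset.mem_product, Finset.mem_product, Finset.mem_range, Finset.mem_range,
        Finset.mem_range]
      simp only
      omega
    · rw [Finset.mem_filter]
      refine ⟨hg.1, hP, hs, ?_⟩
      show P + 2 * p + 2 * q +
        viol (P + 1) l (cOf (P + 1) g.f) (sOf (P + 1) g.f) (bOf (P + 1) g.f) ≤ n + (l + 3)
      omega
  have hC0 : 0 ≤ C := by
    refine le_trans ?_ (hC 0)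
    rw [ZZ_conf]
    exact mul_nonneg (by positivity) (Finset.sum_nonneg fun _ _ => by positivity)
  have h4 : ∀ t ∈ I, ((B.filter (fun g => XX l n t.1 t.2.1 t.2.2 g)).card : ℝ) ≤
      C / x * 32 ^ (l + 1) / x ^ (n + (l + 3)) := by
    rintro ⟨P, p, q⟩ _
    rw [le_div_iff₀ (by positivity)]
    have h5 := XX_count l n P p q hx hx1 (B.filter (fun g => XX l n P p q g))
      (fun g hg => (Finset.mem_filter.1 hg).2)
    refine h5.trans ?_
    have h6 : x ^ P * ZZ (P + 1) l x ≤ C / x := by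
      rw [le_div_iff₀ hx]
      have := hC P
      rw [pow_succ] at this
      linarith
    have h7 : x ^ (P + 2 * p + 2 * q) * (32 ^ (p + q + l + 1) * ZZ (P + 1) l x) =
        (32 * x ^ 2) ^ (p + q) * (x ^ P * ZZ (P + 1) l x) * 32 ^ (l + 1) := by
      rw [mul_pow, ← pow_mul]; ring
    rw [h7]
    refine mul_le_mul_of_nonneg_right ?_ (by positivity)
    have h8 : 0 ≤ x ^ P * ZZ (P + 1) l x := by
      rw [ZZ_conf]
      exact mul_nonneg (by positivity) (Finset.sum_nonneg fun _ _ => by positivity)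
    have h9 : (32 * x ^ 2) ^ (p + q) ≤ 1 := pow_le_one₀ (by positivity) hx2
    nlinarith
  have h5 : (Bp.card : ℝ) ≤ ((n : ℝ) + (l + 4)) ^ 3 *
      (C / x * 32 ^ (l + 1) / x ^ (n + (l + 3))) := by
    have h6 : (Bp.card : ℝ) ≤
        ∑ t ∈ I, ((B.filter (fun g => XX l n t.1 t.2.1 t.2.2 g)).card : ℝ) := by
      have := (Finset.card_le_card h3).trans Finset.card_biUnion_le
      exact_mod_cast this
    refine h6.trans ((Finset.sum_le_sum h4).trans (le_of_eq ?_))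
    rw [Finset.sum_const, nsmul_eq_mul, hI, Finset.card_product, Finset.card_product,
      Finset.card_range]
    push_cast
    ring
  rw [hBc, h1]
  push_cast
  have h7 : (Bn.card : ℝ) ≤ Bp.card := by exact_mod_cast h2
  linarith

lemma rate_le (l : ℕ) (hl : 0 < l) {ρ : ℝ} (h0 : 0 < ρ) (h1 : ρ ≤ 1) (hx : 0 < 2 * ρ ^ 2 - 1)
    (hx2 : 32 * (2 * ρ ^ 2 - 1) ^ 2 ≤ 1)
    (hA : (8 * (2 * ρ ^ 2 - 1) * (1 + ρ) ^ 2) ≤ 1)
    (hA2 : (8 * (2 * ρ ^ 2 - 1) * (1 + ρ) ^ 2) ^ l * 2 ≤ 1)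
    {r : ℝ} (hr : IsGrowthRate (gen l) r) : r ≤ 1 / (2 * ρ ^ 2 - 1) := by
  set x := 2 * ρ ^ 2 - 1 with hxdef
  set a := 8 * x * (1 + ρ) ^ 2 with ha
  have ha0 : 0 ≤ a := by positivity
  have hx1 : x ≤ 1 := by nlinarith
  have hC : ∀ P : ℕ, x ^ (P + 1) * ZZ (P + 1) l x ≤ 2 ^ (l + 1) := by
    intro P
    have c1 := ZZ_upper (P + 1) l hl h0 h1
    rw [← hxdef] at c1
    set R := P + 1 with hR
    have c2 : x ^ R * ((8 * (1 + ρ) ^ 2) ^ R * 2 ^ (R / l + 1 + l)) =
        a ^ R * 2 ^ (R / l) * 2 ^ (l + 1) := by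
      rw [ha, show 8 * x * (1 + ρ) ^ 2 = x * (8 * (1 + ρ) ^ 2) by ring,
        mul_pow x (8 * (1 + ρ) ^ 2) R]
      ring
    refine (mul_le_mul_of_nonneg_left c1 (by positivity)).trans ?_
    rw [c2]
    have c3 : a ^ R * 2 ^ (R / l) ≤ 1 := by
      have c4 : a ^ R ≤ a ^ (l * (R / l)) :=
        pow_le_pow_of_le_one ha0 hA (Nat.mul_div_le R l)
      calc a ^ R * 2 ^ (R / l) ≤ a ^ (l * (R / l)) * 2 ^ (R / l) :=
            mul_le_mul_of_nonneg_right c4 (by positivity)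
        _ = (a ^ l * 2) ^ (R / l) := by rw [mul_pow (a ^ l) 2, ← pow_mul a]
        _ ≤ 1 := pow_le_one₀ (by positivity) hA2
    have c5 : (0 : ℝ) ≤ 2 ^ (l + 1) := by positivity
    nlinarith
  refine hr.le_of_bound (by positivity)
    (C := 2 * ((l : ℝ) + 4) ^ 3 * (2 ^ (l + 1) / x * 32 ^ (l + 1) / x ^ (l + 3))) fun n => ?_
  refine (upper_count l n hx hx1 hx2 hC).trans ?_
  have d1 : ((n : ℝ) + (l + 4)) ^ 3 ≤ ((l : ℝ) + 4) ^ 3 * ((n : ℝ) + 1) ^ 3 := by
    rw [← mul_pow]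
    refine pow_le_pow_left₀ (by positivity) ?_ 3
    have : (0 : ℝ) ≤ n := Nat.cast_nonneg n
    have : (0 : ℝ) ≤ l := Nat.cast_nonneg l
    nlinarith
  have d2 : (2 : ℝ) ^ (l + 1) / x * 32 ^ (l + 1) / x ^ (n + (l + 3)) =
      2 ^ (l + 1) / x * 32 ^ (l + 1) / x ^ (l + 3) * (1 / x) ^ n := by
    rw [pow_add x n (l + 3), one_div, inv_pow]; field_simp
  rw [d2]
  have d3 : (0 : ℝ) ≤ 2 ^ (l + 1) / x * 32 ^ (l + 1) / x ^ (l + 3) * (1 / x) ^ n := by positivity
  calc 2 * (((n : ℝ) + (l + 4)) ^ 3 * (2 ^ (l + 1) / x * 32 ^ (l + 1) / x ^ (l + 3) * (1 / x) ^ n))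
      ≤ 2 * ((((l : ℝ) + 4) ^ 3 * ((n : ℝ) + 1) ^ 3) *
        (2 ^ (l + 1) / x * 32 ^ (l + 1) / x ^ (l + 3) * (1 / x) ^ n)) := by
        have := mul_le_mul_of_nonneg_right d1 d3
        linarith
    _ = _ := by ring

end Pool.Agent.H38.GR
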