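import Pool.Agent.H38.GR.Spin

/-! The cyclic spin model. -/

namespace Pool.Agent.H38.GR

open Finset

set_option linter.unusedSectionVars false
set_option linter.unusedVariables false

/-- spins of the cyclic model with `R` sites -/
abbrev Sp (R : ℕ) := ZMod R × Bool

/-- follow the edge from a spin -/
def shiftE (R l : ℕ) : Sp R ≃ Sp R where
  toFun u := if u.2 then (u.1 + 1, true) else (u.1 - l, false)
  invFun u := if u.2 then (u.1 - 1, true) else (u.1 + l, false)
  left_inv := by rintro ⟨j, b⟩; cases b <;> simp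
  right_inv := by rintro ⟨j, b⟩; cases b <;> simp

/-- exchange the two spins of the crossed sites -/
def flipE (R : ℕ) (c : ZMod R → ZMod 2) : Sp R ≃ Sp R where
  toFun u := (u.1, if c u.1 = 1 then !u.2 else u.2)
  invFun u := (u.1, if c u.1 = 1 then !u.2 else u.2)
  left_inv := by rintro ⟨j, b⟩; by_cases h : c j = 1 <;> simp [h]
  right_inv := by rintro ⟨j, b⟩; by_cases h : c j = 1 <;> simp [h]

/-- the next spin on the wire -/
def nxt (R l : ℕ) (c : ZMod R → ZMod 2) : Sp R ≃ Sp R := (shiftE R l).trans (flipE R c)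

lemma nxt_true (R l : ℕ) (c : ZMod R → ZMod 2) (j : ZMod R) :
    nxt R l c (j, true) = (j + 1, if c (j + 1) = 1 then false else true) := by
  simp only [nxt, shiftE, flipE, Equiv.trans_apply, Equiv.coe_fn_mk, if_true]
  by_cases h : c (j + 1) = 1 <;> simp [h]

lemma nxt_false (R l : ℕ) (c : ZMod R → ZMod 2) (j : ZMod R) :
    nxt R l c (j, false) = (j - l, if c (j - l) = 1 then true else false) := by
  simp only [nxt, shiftE, flipE, Equiv.trans_apply, Equiv.coe_fn_mk]
  by_cases h : c (j - l) = 1 <;> simp [h]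

/-- weight of an edge -/
noncomputable def wt (x : ℝ) (s s' : ZMod 2) : ℝ := if s = 1 ∧ s' = 0 then 1 + x else 2

lemma one_ne_zero2 : (1 : ZMod 2) ≠ 0 := by decide
lemma zero_ne_one2 : (0 : ZMod 2) ≠ 1 := by decide

/-- factor of a spin -/
noncomputable def rr (ρ : ℝ) (s : ZMod 2) : ℝ := if s = 1 then ρ else 1

lemma rr_pos {ρ : ℝ} (h : 0 < ρ) (s : ZMod 2) : 0 < rr ρ s := by
  unfold rr; split_ifs <;> linarith

lemma wt_eq {ρ : ℝ} (h : 0 < ρ) (s s' : ZMod 2) :
    wt (2 * ρ ^ 2 - 1) s s' =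
      (1 + ρ) * (rr ρ s / rr ρ s') * (1 + (1 - ρ) / (1 + ρ) * (sg s * sg s')) := by
  have h1 : 1 + ρ ≠ 0 := by positivity
  have h2 : ρ ≠ 0 := h.ne'
  rcases z2 s with rfl | rfl <;> rcases z2 s' with rfl | rfl <;>
    simp [wt, rr, one_ne_zero2, zero_ne_one2] <;> field_simp <;> ring

variable (R l : ℕ) [NeZero R]

/-- number of violated edges -/
def viol (c : ZMod R → ZMod 2) (s β : Sp R → ZMod 2) : ℕ :=
  (Finset.univ.filter fun u => β u = 1 ∧ s u = 1 ∧ s (nxt R l c u) = 0).card

/-- partition function -/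
noncomputable def ZZ (x : ℝ) : ℝ :=
  ∑ c : ZMod R → ZMod 2, ∑ s : Sp R → ZMod 2, ∑ β : Sp R → ZMod 2, x ^ viol R l c s β

lemma pow_viol (x : ℝ) (c : ZMod R → ZMod 2) (s β : Sp R → ZMod 2) :
    x ^ viol R l c s β = ∏ u, (if β u = 1 ∧ s u = 1 ∧ s (nxt R l c u) = 0 then x else 1) := by
  rw [viol, Finset.prod_ite, Finset.prod_const, Finset.prod_const_one, mul_one]

lemma sum_bits (x : ℝ) (c : ZMod R → ZMod 2) (s : Sp R → ZMod 2) :
    ∑ β : Sp R → ZMod 2, x ^ viol R l c s β = ∏ u, wt x (s u) (s (nxt R l c u)) := by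
  simp_rw [pow_viol]
  have := (Finset.sum_prod_piFinset (Finset.univ : Finset (ZMod 2))
    (fun (u : Sp R) (b : ZMod 2) => if b = 1 ∧ s u = 1 ∧ s (nxt R l c u) = 0 then x else (1:ℝ)))
  rw [Fintype.piFinset_univ] at this
  rw [this]
  refine Finset.prod_congr rfl fun u _ => ?_
  have hu : (Finset.univ : Finset (ZMod 2)) = {0, 1} := by decide
  rw [hu, Finset.sum_pair zero_ne_one2]
  unfold wt
  simp only [zero_ne_one2, false_and, if_false, true_and]
  split_ifs <;> norm_num

lemma ZZ_eq (x : ℝ) : ZZ R l x =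
    ∑ c : ZMod R → ZMod 2, ∑ s : Sp R → ZMod 2, ∏ u, wt x (s u) (s (nxt R l c u)) := by
  unfold ZZ
  simp_rw [sum_bits]

lemma card_Sp : Fintype.card (Sp R) = 2 * R := by
  rw [Fintype.card_prod, ZMod.card, Fintype.card_bool, mul_comm]

lemma prod_wt {ρ : ℝ} (h : 0 < ρ) (c : ZMod R → ZMod 2) (s : Sp R → ZMod 2) :
    ∏ u, wt (2 * ρ ^ 2 - 1) (s u) (s (nxt R l c u)) =
      (1 + ρ) ^ (2 * R) * ∏ u, (1 + (1 - ρ) / (1 + ρ) * ech (nxt R l c) u s) := by
  simp_rw [wt_eq h]
  rw [Finset.prod_mul_distrib, Finset.prod_mul_distrib, Finset.prod_const, Finset.prod_div_distrib]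
  have e : ∏ u, rr ρ (s (nxt R l c u)) = ∏ u, rr ρ (s u) :=
    Equiv.prod_comp (nxt R l c) (fun u => rr ρ (s u))
  rw [e, div_self, mul_one, Finset.card_univ, card_Sp]
  · rfl
  · exact (Finset.prod_pos fun u _ => rr_pos h _).ne'

lemma ZZ_eq' {ρ : ℝ} (h : 0 < ρ) : ZZ R l (2 * ρ ^ 2 - 1) = (1 + ρ) ^ (2 * R) *
    ∑ c : ZMod R → ZMod 2, ∑ s : Sp R → ZMod 2,
      ∏ u, (1 + (1 - ρ) / (1 + ρ) * ech (nxt R l c) u s) := by
  rw [ZZ_eq]
  simp_rw [prod_wt R l h, Finset.mul_sum]

/-! ### Upper bound -/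

/-- potential of a site -/
def pot (j : ZMod R) : ℤ := ((j.val % l : ℕ) : ℤ) - ((j.val / l : ℕ) : ℤ)

/-- the edges which are kept -/
def kept (c : ZMod R → ZMod 2) : Finset (Sp R) :=
  Finset.univ.filter fun u => pot R l u.1 < pot R l (nxt R l c u).1

/-- the edges which may be removed -/
def remo : Finset (Sp R) :=
  Finset.univ.filter fun u => (u.2 = true ∧ (l ∣ u.1.val + 1 ∨ u.1.val + 1 = R)) ∨
    (u.2 = false ∧ u.1.val < l)

lemma val_add_one' (j : ZMod R) (h : j.val + 1 < R) : (j + 1).val = j.val + 1 := by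
  have h1 : (1 : ZMod R).val = 1 := by
    apply ZMod.val_one''
    omega
  rw [ZMod.val_add_of_lt (by rw [h1]; exact h), h1]

lemma val_sub' (j : ZMod R) (h : l ≤ j.val) : (j - (l : ZMod R)).val = j.val - l := by
  have hl : l < R := lt_of_le_of_lt h (ZMod.val_lt j)
  have h1 : ((l : ℕ) : ZMod R).val = l := ZMod.val_natCast_of_lt hl
  rw [ZMod.val_sub (by rw [h1]; exact h), h1]

lemma nxt_fst (c : ZMod R → ZMod 2) (u : Sp R) :
    (nxt R l c u).1 = if u.2 then u.1 + 1 else u.1 - l := by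
  obtain ⟨j, b⟩ := u
  cases b
  · rw [nxt_false]; simp
  · rw [nxt_true]; simp

lemma not_kept (hl : 0 < l) (c : ZMod R → ZMod 2) : (kept R l c)ᶜ ⊆ remo R l := by
  intro u hu
  rw [Finset.mem_compl] at hu
  by_contra hr
  apply hu
  simp only [remo, Finset.mem_filter, Finset.mem_univ, true_and, not_or, not_and, not_lt] at hr
  simp only [kept, Finset.mem_filter, Finset.mem_univ, true_and]
  rw [nxt_fst]
  obtain ⟨j, b⟩ := u
  have hj := ZMod.val_lt j
  cases b
  · simp only [Bool.false_eq_true, if_false]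
    have h := hr.2 rfl
    simp only at h
    unfold pot
    rw [val_sub' R l j h]
    have h1 : (j.val - l) % l = j.val % l := by
      conv_rhs => rw [← Nat.sub_add_cancel h]
      simp
    have h2 : j.val / l = (j.val - l) / l + 1 := by
      conv_lhs => rw [← Nat.sub_add_cancel h]
      simp [Nat.add_div_right _ hl]
    rw [h1, h2]
    push_cast
    linarith
  · simp only [if_true]
    obtain ⟨h1, h2⟩ := hr.1 rfl
    simp only at h1 h2
    unfold pot
    rw [val_add_one' R j (by omega)]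
    have h3 : (j.val + 1) / l = j.val / l := by
      rw [Nat.succ_div_of_not_dvd h1]
    have h4 : (j.val + 1) % l = j.val % l + 1 := by
      have e1 := Nat.div_add_mod (j.val + 1) l
      have e2 := Nat.div_add_mod (j.val) l
      rw [h3] at e1
      omega
    rw [h3, h4]
    push_cast
    linarith

lemma card_val_lt (m : ℕ) : (Finset.univ.filter fun j : ZMod R => j.val < m).card ≤ m := by
  have : ((Finset.univ.filter fun j : ZMod R => j.val < m).image ZMod.val) ⊆ Finset.range m := by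
    intro i hi
    simp only [Finset.mem_image, Finset.mem_filter, Finset.mem_univ, true_and] at hi
    obtain ⟨j, hj, rfl⟩ := hi
    exact Finset.mem_range.2 hj
  have h2 := Finset.card_le_card this
  rw [Finset.card_image_of_injective _ (ZMod.val_injective R), Finset.card_range] at h2
  exact h2

lemma card_dvd : (Finset.univ.filter fun j : ZMod R => l ∣ j.val + 1).card ≤ R / l := by
  have : ((Finset.univ.filter fun j : ZMod R => l ∣ j.val + 1).image ZMod.val) ⊆
      (Finset.range R).filter (fun e => l ∣ e + 1) := by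
    intro i hi
    simp only [Finset.mem_image, Finset.mem_filter, Finset.mem_univ, true_and] at hi
    obtain ⟨j, hj, rfl⟩ := hi
    exact Finset.mem_filter.2 ⟨Finset.mem_range.2 (ZMod.val_lt j), hj⟩
  have h2 := Finset.card_le_card this
  rw [Finset.card_image_of_injective _ (ZMod.val_injective R), Nat.card_multiples] at h2
  exact h2

lemma card_last : (Finset.univ.filter fun j : ZMod R => j.val + 1 = R).card ≤ 1 := by
  rw [Finset.card_le_one]
  intro a ha b hb
  simp only [Finset.mem_filter, Finset.mem_univ, true_and] at ha hb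
  exact ZMod.val_injective R (by omega)

lemma card_remo : (remo R l).card ≤ R / l + 1 + l := by
  have : remo R l ⊆ (((Finset.univ.filter fun j : ZMod R => l ∣ j.val + 1) ∪
      (Finset.univ.filter fun j : ZMod R => j.val + 1 = R)).image fun j => (j, true)) ∪
      ((Finset.univ.filter fun j : ZMod R => j.val < l).image fun j => (j, false)) := by
    rintro ⟨j, b⟩ hu
    simp only [remo, Finset.mem_filter, Finset.mem_univ, true_and] at hu
    cases b <;> simp at hu ⊢ <;> exact hu
  refine (Finset.card_le_card this).trans ?_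
  refine (Finset.card_union_le _ _).trans ?_
  refine add_le_add (Finset.card_image_le.trans ((Finset.card_union_le _ _).trans
    (add_le_add (card_dvd R l) (card_last R)))) (Finset.card_image_le.trans (card_val_lt R l))

lemma ech_bound (h : Sp R → Sp R) (u : Sp R) (s : Sp R → ZMod 2) : ech h u s ≤ 1 ∧ -1 ≤ ech h u s := by
  unfold ech
  rcases z2 (s u) with h1 | h1 <;> rcases z2 (s (h u)) with h2 | h2 <;> simp [h1, h2]

lemma sum_upper (hl : 0 < l) {κ : ℝ} (h0 : 0 ≤ κ) (h1 : κ ≤ 1) (c : ZMod R → ZMod 2) :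
    ∑ s : Sp R → ZMod 2, ∏ u, (1 + κ * ech (nxt R l c) u s) ≤
      (1 + κ) ^ (R / l + 1 + l) * 2 ^ (2 * R) := by
  have e := acyclic_sum (nxt R l c) (fun u => pot R l u.1) (kept R l c)
    (fun u hu => (Finset.mem_filter.1 hu).2) κ
  rw [card_Sp] at e
  rw [← e, Finset.mul_sum]
  refine Finset.sum_le_sum fun s _ => ?_
  have hfac : ∀ u, 0 ≤ 1 + κ * ech (nxt R l c) u s := by
    intro u
    have := ech_bound R (nxt R l c) u s
    nlinarith
  have hfac' : ∀ u, 1 + κ * ech (nxt R l c) u s ≤ 1 + κ := by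
    intro u
    have := ech_bound R (nxt R l c) u s
    nlinarith
  rw [← Finset.prod_mul_prod_compl (kept R l c), mul_comm]
  refine mul_le_mul_of_nonneg_right ?_ (Finset.prod_nonneg fun u _ => hfac u)
  refine (Finset.prod_le_prod (fun u _ => hfac u) (fun u _ => hfac' u)).trans ?_
  rw [Finset.prod_const]
  refine pow_le_pow_right₀ (by linarith) ?_
  exact (Finset.card_le_card (not_kept R l hl c)).trans (card_remo R l)

lemma ZZ_upper (hl : 0 < l) {ρ : ℝ} (h0 : 0 < ρ) (h1 : ρ ≤ 1) :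
    ZZ R l (2 * ρ ^ 2 - 1) ≤ (8 * (1 + ρ) ^ 2) ^ R * 2 ^ (R / l + 1 + l) := by
  rw [ZZ_eq' R l h0]
  have hκ0 : 0 ≤ (1 - ρ) / (1 + ρ) := div_nonneg (by linarith) (by linarith)
  have hκ1 : (1 - ρ) / (1 + ρ) ≤ 1 := by
    rw [div_le_one (by linarith)]; linarith
  have h2 : ∑ c : ZMod R → ZMod 2, ∑ s : Sp R → ZMod 2,
      ∏ u, (1 + (1 - ρ) / (1 + ρ) * ech (nxt R l c) u s) ≤
      2 ^ R * (2 ^ (R / l + 1 + l) * 2 ^ (2 * R)) := by
    refine (Finset.sum_le_sum fun c _ => sum_upper R l hl hκ0 hκ1 c).trans ?_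
    rw [Finset.sum_const, nsmul_eq_mul, Finset.card_univ, Fintype.card_fun, ZMod.card, ZMod.card]
    push_cast
    refine mul_le_mul_of_nonneg_left ?_ (by positivity)
    refine mul_le_mul_of_nonneg_right ?_ (by positivity)
    exact pow_le_pow_left₀ (by linarith) (by linarith) _
  refine (mul_le_mul_of_nonneg_left h2 (by positivity)).trans (le_of_eq ?_)
  rw [mul_pow, ← pow_mul]
  have : (8 : ℝ) ^ R = 2 ^ R * 2 ^ (2 * R) := by
    rw [← pow_add, show R + 2 * R = 3 * R by ring, pow_mul]; norm_num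
  rw [this]; ring

end Pool.Agent.H38.GR
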