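import Mathlib

/-! Growth rates of finitely generated groups. -/

namespace Pool.Agent.H38.GR

open Filter Topology

/-- The elements of `G` of word length at most `n` with respect to the finite set `S` and the
inverses of its elements. -/
def ball {G : Type*} [Group G] (S : Finset G) (n : ℕ) : Set G :=
  {g | ∃ w : List G, w.length ≤ n ∧ (∀ x ∈ w, x ∈ S ∨ x⁻¹ ∈ S) ∧ w.prod = g}

/-- `r` is the growth rate of `G` with respect to `S`: the limit of the `n`-th roots of the numbers
of elements of length at most `n`. -/
def IsGrowthRate {G : Type*} [Group G] (S : Finset G) (r : ℝ) : Prop :=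
  Tendsto (fun n : ℕ => ((ball S n).ncard : ℝ) ^ (1 / (n : ℝ))) atTop (𝓝 r)

/-- The set of the growth rates of `G` with respect to all its finite generating sets. -/
def growthRates (G : Type*) [Group G] : Set ℝ :=
  {r | ∃ S : Finset G, Subgroup.closure (S : Set G) = ⊤ ∧ IsGrowthRate S r}

/-- Every nonempty subset of `E` has a least element. -/
def IsWellOrderedSet (E : Set ℝ) : Prop := ∀ T ⊆ E, T.Nonempty → ∃ m, IsLeast T m

end Pool.Agent.H38.GR
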