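import Pool.Agent.H38.GR.Lamp

/-! A lower bound for the length of an element. -/

namespace Pool.Agent.H38.GR

open Finset

set_option linter.unusedSectionVars false
set_option linter.unusedVariables false

/-- crossings of a configuration -/
def cOf (R : ℕ) (F : ℤ → V) : ZMod R → ZMod 2 := fun j => F j.val 2
/-- spins of a configuration -/
def sOf (R : ℕ) (F : ℤ → V) : Sp R → ZMod 2 := fun u => if u.2 then F u.1.val 0 else F u.1.val 1
/-- bits of a configuration -/
def bOf (R : ℕ) (F : ℤ → V) : Sp R → ZMod 2 := fun u => if u.2 then F u.1.val 3 else F u.1.val 4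

lemma val_cast_inj (R : ℕ) [NeZero R] : Function.Injective (fun j : ZMod R => ((j.val : ℕ) : ℤ)) := by
  intro a b h
  apply ZMod.val_injective R
  exact Nat.cast_injective (R := ℤ) h

lemma sum_val_le_tot (R : ℕ) [NeZero R] (N : ℤ →₀ ℕ) : ∑ j : ZMod R, N (j.val : ℤ) ≤ tot N := by
  rw [← Finset.sum_image (s := Finset.univ) (g := fun j : ZMod R => ((j.val : ℕ) : ℤ))
    (f := fun i => N i) (fun a _ b _ h => val_cast_inj R h)]
  exact sum_le_tot N _

lemma card_ge_val (R : ℕ) [NeZero R] (a : ℕ) :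
    (Finset.univ.filter fun j : ZMod R => a ≤ j.val).card ≤ R - a := by
  have : ((Finset.univ.filter fun j : ZMod R => a ≤ j.val).image ZMod.val) ⊆ Finset.Ico a R := by
    intro i hi
    simp only [Finset.mem_image, Finset.mem_filter, Finset.mem_univ, true_and] at hi
    obtain ⟨j, hj, rfl⟩ := hi
    exact Finset.mem_Ico.2 ⟨hj, ZMod.val_lt j⟩
  have h2 := Finset.card_le_card this
  rw [Finset.card_image_of_injective _ (ZMod.val_injective R), Nat.card_Ico] at h2
  exact h2

lemma track_f0 {l n : ℕ} {g : Lamp} {lo hi : ℤ} {N LA LB : ℤ →₀ ℕ} {M : ℤ → V} {h k : ℤ → ZMod 2}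
    (t : Track l n g lo hi N LA LB M h k) (j : ℤ) :
    g.f j 0 = M j 0 ∧ g.f j 1 = M j 1 ∧ g.f j 2 = M j 2 ∧ g.f j 3 = M j 3 + (h (j + 1) + LA j) ∧
      g.f j 4 = M j 4 + (k (j - l) + LB j) := by
  rw [t.val j]
  simp only [Pi.add_apply, Pi.smul_apply, smul_eq_mul]
  refine ⟨?_, ?_, ?_, ?_, ?_⟩
  · rw [show ey 0 = 0 from rfl, show ez 0 = 0 from rfl]; ring
  · rw [show ey 1 = 0 from rfl, show ez 1 = 0 from rfl]; ring
  · rw [show ey 2 = 0 from rfl, show ez 2 = 0 from rfl]; ring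
  · rw [show ey 3 = 1 from rfl, show ez 3 = 0 from rfl]; ring
  · rw [show ey 4 = 0 from rfl, show ez 4 = 1 from rfl]; ring

/-- edges with a missing end -/
def nonint (P l : ℕ) (u : Sp (P + 1)) : ℕ :=
  if (u.2 = true ∧ P ≤ u.1.val + 1) ∨ (u.2 = false ∧ (u.1.val < l ∨ P ≤ u.1.val)) then 1 else 0

lemma sum_nonint (P l : ℕ) : ∑ u : Sp (P + 1), nonint P l u ≤ l + 3 := by
  unfold nonint
  rw [← Finset.card_filter]
  have : (Finset.univ.filter fun u : Sp (P + 1) => (u.2 = true ∧ P ≤ u.1.val + 1) ∨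
      (u.2 = false ∧ (u.1.val < l ∨ P ≤ u.1.val))) ⊆
      ((Finset.univ.filter fun j : ZMod (P + 1) => P - 1 ≤ j.val).image fun j => (j, true)) ∪
      (((Finset.univ.filter fun j : ZMod (P + 1) => j.val < l) ∪
        (Finset.univ.filter fun j : ZMod (P + 1) => P ≤ j.val)).image fun j => (j, false)) := by
    rintro ⟨j, b⟩ hu
    simp only [Finset.mem_filter, Finset.mem_univ, true_and] at hu
    cases b
    · simp at hu ⊢
      exact hu
    · simp at hu ⊢
      exact hu
  refine (Finset.card_le_card this).trans ?_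
  refine (Finset.card_union_le _ _).trans ?_
  have h1 := (card_ge_val (P + 1) (P - 1))
  have h2 := (card_val_lt (P + 1) l)
  have h3 := (card_ge_val (P + 1) P)
  have h4 : ((Finset.univ.filter fun j : ZMod (P + 1) => P - 1 ≤ j.val).image fun j => (j, true)).card
    ≤ (Finset.univ.filter fun j : ZMod (P + 1) => P - 1 ≤ j.val).card := Finset.card_image_le
  have h5 : (((Finset.univ.filter fun j : ZMod (P + 1) => j.val < l) ∪
        (Finset.univ.filter fun j : ZMod (P + 1) => P ≤ j.val)).image fun j => (j, false)).card ≤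
      ((Finset.univ.filter fun j : ZMod (P + 1) => j.val < l) ∪
        (Finset.univ.filter fun j : ZMod (P + 1) => P ≤ j.val)).card := Finset.card_image_le
  have h6 := Finset.card_union_le (Finset.univ.filter fun j : ZMod (P + 1) => j.val < l)
        (Finset.univ.filter fun j : ZMod (P + 1) => P ≤ j.val)
  omega

/-- sites which are crossed at least three times -/
def DD (P : ℕ) (N : ℤ →₀ ℕ) (j : ZMod (P + 1)) : ℕ :=
  if j.val < P ∧ 3 ≤ N (j.val : ℤ) then 1 else 0

lemma viol_pt {l n P : ℕ} {g : Lamp} {lo hi : ℤ} {N LA LB : ℤ →₀ ℕ} {M : ℤ → V} {h k : ℤ → ZMod 2}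
    (t : Track l n g lo hi N LA LB M h k) (hP : g.p = P) (u : Sp (P + 1)) :
    (if bOf (P + 1) g.f u = 1 ∧ sOf (P + 1) g.f u = 1 ∧
        sOf (P + 1) g.f (nxt (P + 1) l (cOf (P + 1) g.f) u) = 0 then 1 else 0) ≤
      nonint P l u + (if u.2 then LA (u.1.val : ℤ) else LB (u.1.val : ℤ)) +
      (if sOf (P + 1) g.f u = 1 then DD P N u.1 else 0) +
      (if sOf (P + 1) g.f (nxt (P + 1) l (cOf (P + 1) g.f) u) = 0 then
        DD P N (nxt (P + 1) l (cOf (P + 1) g.f) u).1 else 0) := by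
  by_cases hv : bOf (P + 1) g.f u = 1 ∧ sOf (P + 1) g.f u = 1 ∧
        sOf (P + 1) g.f (nxt (P + 1) l (cOf (P + 1) g.f) u) = 0
  swap
  · rw [if_neg hv]; exact Nat.zero_le _
  rw [if_pos hv]
  obtain ⟨hb, hs, hs'⟩ := hv
  rw [if_pos hs, if_pos hs']
  by_contra hcon
  have hn : nonint P l u = 0 := by omega
  have hL : (if u.2 then LA (u.1.val : ℤ) else LB (u.1.val : ℤ)) = 0 := by omega
  have hD : DD P N u.1 = 0 := by omega
  have hD' : DD P N (nxt (P + 1) l (cOf (P + 1) g.f) u).1 = 0 := by omega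
  clear hcon
  have podd : ∀ j : ℕ, j < P → N (j : ℤ) % 2 = 1 := by
    intro j hj
    rw [t.par, if_pos]
    left
    rw [hP]
    omega
  obtain ⟨j, b⟩ := u
  cases b
  · -- an edge of the second kind
    simp only [nonint, Bool.false_eq_true, false_and, true_and, false_or] at hn
    have hn' : ¬ (j.val < l ∨ P ≤ j.val) := by
      intro h1
      rw [if_pos h1] at hn
      omega
    push Not at hn'
    obtain ⟨hlj, hjP⟩ := hn'
    rw [nxt_false] at hs' hD'
    have hvs := val_sub' (P + 1) l j hlj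
    simp only [DD, hvs] at hD hD'
    simp only [Bool.false_eq_true, if_false] at hL
    have hN1 : N (j.val : ℤ) = 1 := by
      have := podd j.val hjP
      by_contra h1
      rw [if_pos ⟨hjP, by omega⟩] at hD
      omega
    have hN2 : N ((j.val - l : ℕ) : ℤ) = 1 := by
      have := podd (j.val - l) (by omega)
      by_contra h1
      rw [if_pos ⟨by omega, by omega⟩] at hD'
      omega
    obtain ⟨m, hm, -, -⟩ := t.one _ hN1
    obtain ⟨m', hm', -, hk'⟩ := t.one _ hN2
    obtain ⟨-, f1, -, -, f4⟩ := track_f0 t (j.val : ℤ)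
    obtain ⟨f0', f1', f2', -, -⟩ := track_f0 t ((j.val - l : ℕ) : ℤ)
    simp only [bOf, sOf, Bool.false_eq_true, if_false] at hb hs
    have e1 : ((j.val : ℕ) : ℤ) - l = ((j.val - l : ℕ) : ℤ) := by
      rw [Nat.cast_sub hlj]
    rw [f4, hL, e1, hk', hm] at hb
    rw [f1, hm] at hs
    have hm1 : m 1 = 1 := hs
    have hb' : (1 + m 1) * m 4 + (kC m' + ((0 : ℕ) : ZMod 2)) = 1 := hb
    rw [hm1, show (1 : ZMod 2) + 1 = 0 by decide, zero_mul, zero_add, Nat.cast_zero, add_zero] at hb'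
    have hc : cOf (P + 1) g.f (j - l) = m' 2 := by
      unfold cOf
      rw [hvs, f2', hm']
      rfl
    rw [hc] at hs'
    unfold kC at hb'
    rcases z2 (m' 2) with h2 | h2
    · rw [h2, if_neg zero_ne_one2] at hs'
      simp only [sOf, Bool.false_eq_true, if_false] at hs'
      rw [hvs, f1', hm'] at hs'
      have h3 : m' 1 = 0 := hs'
      rw [h2, h3] at hb'
      simp at hb'
    · rw [h2, if_pos rfl] at hs'
      simp only [sOf, if_true] at hs'
      rw [hvs, f0', hm'] at hs'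
      have h3 : m' 0 = 0 := hs'
      rw [h2, h3, show (1 : ZMod 2) + 1 = 0 by decide] at hb'
      simp at hb'
  · -- an edge of the first kind
    simp only [nonint, Bool.true_eq_false, false_and, true_and, or_false] at hn
    have hn' : ¬ (P ≤ j.val + 1) := by
      intro h1
      rw [if_pos h1] at hn
      omega
    push Not at hn'
    have hjP : j.val < P := by omega
    rw [nxt_true] at hs' hD'
    have hvs := val_add_one' (P + 1) j (by omega)
    simp only [DD, hvs] at hD hD'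
    simp only [if_true] at hL
    have hN1 : N (j.val : ℤ) = 1 := by
      have := podd j.val hjP
      by_contra h1
      rw [if_pos ⟨hjP, by omega⟩] at hD
      omega
    have hN2 : N ((j.val + 1 : ℕ) : ℤ) = 1 := by
      have := podd (j.val + 1) hn'
      by_contra h1
      rw [if_pos ⟨hn', by omega⟩] at hD'
      omega
    obtain ⟨m, hm, -, -⟩ := t.one _ hN1
    obtain ⟨m', hm', hk', -⟩ := t.one _ hN2
    obtain ⟨f0, -, -, f3, -⟩ := track_f0 t (j.val : ℤ)
    obtain ⟨f0', f1', f2', -, -⟩ := track_f0 t ((j.val + 1 : ℕ) : ℤ)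
    simp only [bOf, sOf, if_true] at hb hs
    have e1 : ((j.val : ℕ) : ℤ) + 1 = ((j.val + 1 : ℕ) : ℤ) := by
      push_cast; ring
    rw [f3, hL, e1, hk', hm] at hb
    rw [f0, hm] at hs
    have hm1 : m 0 = 1 := hs
    have hb' : (1 + m 0) * m 3 + (hC m' + ((0 : ℕ) : ZMod 2)) = 1 := hb
    rw [hm1, show (1 : ZMod 2) + 1 = 0 by decide, zero_mul, zero_add, Nat.cast_zero, add_zero] at hb'
    have hc : cOf (P + 1) g.f (j + 1) = m' 2 := by
      unfold cOf
      rw [hvs, f2', hm']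
      rfl
    rw [hc] at hs'
    unfold hC at hb'
    rcases z2 (m' 2) with h2 | h2
    · rw [h2, if_neg zero_ne_one2] at hs'
      simp only [sOf, if_true] at hs'
      rw [hvs, f0', hm'] at hs'
      have h3 : m' 0 = 0 := hs'
      rw [h2, h3] at hb'
      simp at hb'
    · rw [h2, if_pos rfl] at hs'
      simp only [sOf, Bool.false_eq_true, if_false] at hs'
      rw [hvs, f1', hm'] at hs'
      have h3 : m' 1 = 0 := hs'
      rw [h2, h3, show (1 : ZMod 2) + 1 = 0 by decide] at hb'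
      simp at hb'

lemma two_mul_sum_aux {ι : Type*} [Fintype ι] (F : ι → ℕ) : 2 * ∑ j, F j = ∑ j, (F j + F j) := by
  rw [Finset.mul_sum]
  exact Finset.sum_congr rfl fun j _ => by ring

lemma sum_DD (P : ℕ) (N : ℤ →₀ ℕ) : ∑ j : ZMod (P + 1), DD P N j ≤
    ∑ i ∈ Finset.Ico (0 : ℤ) P, (if 3 ≤ N i then 1 else 0) := by
  unfold DD
  rw [← Finset.card_filter, ← Finset.card_filter]
  refine Finset.card_le_card_of_injOn (fun j => ((j.val : ℕ) : ℤ)) ?_
    (fun a _ b _ h => val_cast_inj (P + 1) h)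
  intro j hj
  simp only [Finset.coe_filter, Finset.mem_univ, true_and, Set.mem_ofPred_eq] at hj
  simp only [Finset.coe_filter, Set.mem_ofPred_eq, Finset.mem_Ico]
  exact ⟨⟨by omega, by omega⟩, hj.2⟩

lemma viol_le {l n P : ℕ} {g : Lamp} {lo hi : ℤ} {N LA LB : ℤ →₀ ℕ} {M : ℤ → V} {h k : ℤ → ZMod 2}
    (t : Track l n g lo hi N LA LB M h k) (hP : g.p = P) :
    viol (P + 1) l (cOf (P + 1) g.f) (sOf (P + 1) g.f) (bOf (P + 1) g.f) ≤
      (l + 3) + (tot LA + tot LB) + 2 * ∑ i ∈ Finset.Ico (0 : ℤ) P, (if 3 ≤ N i then 1 else 0) := by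
  unfold viol
  rw [Finset.card_filter]
  refine (Finset.sum_le_sum fun u _ => viol_pt t hP u).trans ?_
  rw [Finset.sum_add_distrib, Finset.sum_add_distrib, Finset.sum_add_distrib, add_assoc]
  refine add_le_add (add_le_add (sum_nonint P l) ?_) ?_
  · rw [Fintype.sum_prod_type]
    simp only [Fintype.sum_bool, if_true, Bool.false_eq_true, if_false]
    rw [Finset.sum_add_distrib]
    exact add_le_add (sum_val_le_tot _ _) (sum_val_le_tot _ _)
  · have e1 := Equiv.sum_comp (nxt (P + 1) l (cOf (P + 1) g.f))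
      (fun v => if sOf (P + 1) g.f v = 0 then DD P N v.1 else 0)
    rw [e1, ← Finset.sum_add_distrib]
    have e2 : ∀ u : Sp (P + 1), ((if sOf (P + 1) g.f u = 1 then DD P N u.1 else 0) +
        if sOf (P + 1) g.f u = 0 then DD P N u.1 else 0) = DD P N u.1 := by
      intro u
      rcases z2 (sOf (P + 1) g.f u) with h1 | h1 <;> rw [h1] <;> simp
    simp_rw [e2]
    rw [Fintype.sum_prod_type]
    simp only [Fintype.sum_bool]
    rw [← two_mul_sum_aux]
    exact Nat.mul_le_mul_left 2 (sum_DD P N)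

lemma track_len {l n P : ℕ} {g : Lamp} {lo hi : ℤ} {N LA LB : ℤ →₀ ℕ} {M : ℤ → V} {h k : ℤ → ZMod 2}
    (t : Track l n g lo hi N LA LB M h k) (hP : g.p = P) :
    2 * (-lo).toNat + 2 * (hi - P).toNat + P +
      2 * ∑ i ∈ Finset.Ico (0 : ℤ) P, (if 3 ≤ N i then 1 else 0) ≤ tot N := by
  have l0 := t.lo0
  have ph := t.Phi
  rw [hP] at ph
  have h1 : 2 * (-lo).toNat ≤ ∑ i ∈ Finset.Ico lo 0, N i := by
    have : ∑ i ∈ Finset.Ico lo 0, 2 ≤ ∑ i ∈ Finset.Ico lo 0, N i := by
      refine Finset.sum_le_sum fun i hi' => ?_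
      rw [Finset.mem_Ico] at hi'
      have a1 := t.Nin i hi'.1 (by omega)
      have a2 := t.par i
      rw [if_neg (by omega)] at a2
      omega
    rw [Finset.sum_const, Int.card_Ico, smul_eq_mul] at this
    rw [show (0 : ℤ) - lo = -lo by ring] at this
    omega
  have h2 : 2 * (hi - P).toNat ≤ ∑ i ∈ Finset.Ico (P : ℤ) hi, N i := by
    have : ∑ i ∈ Finset.Ico (P : ℤ) hi, 2 ≤ ∑ i ∈ Finset.Ico (P : ℤ) hi, N i := by
      refine Finset.sum_le_sum fun i hi' => ?_
      rw [Finset.mem_Ico] at hi'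
      have a1 := t.Nin i (by omega) hi'.2
      have a2 := t.par i
      rw [if_neg (by omega)] at a2
      omega
    rw [Finset.sum_const, Int.card_Ico, smul_eq_mul] at this
    omega
  have h3 : P + 2 * ∑ i ∈ Finset.Ico (0 : ℤ) P, (if 3 ≤ N i then 1 else 0) ≤
      ∑ i ∈ Finset.Ico (0 : ℤ) P, N i := by
    have : ∑ i ∈ Finset.Ico (0 : ℤ) P, (1 + 2 * (if 3 ≤ N i then 1 else 0)) ≤
        ∑ i ∈ Finset.Ico (0 : ℤ) P, N i := by
      refine Finset.sum_le_sum fun i hi' => ?_
      rw [Finset.mem_Ico] at hi'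
      have a2 := t.par i
      rw [if_pos (by omega)] at a2
      split_ifs <;> omega
    rw [Finset.sum_add_distrib, Finset.sum_const, Int.card_Ico, smul_eq_mul, ← Finset.mul_sum] at this
    simp only [sub_zero, Int.toNat_natCast, mul_one] at this
    exact this
  have h4 := sum_le_tot N (Finset.Ico lo 0 ∪ Finset.Ico (0 : ℤ) P ∪ Finset.Ico (P : ℤ) hi)
  rw [Finset.sum_union, Finset.sum_union] at h4
  · omega
  · rw [Finset.disjoint_left]
    intro i h1 h2
    rw [Finset.mem_Ico] at h1 h2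
    omega
  · rw [Finset.disjoint_left]
    intro i h1 h2
    rw [Finset.mem_union, Finset.mem_Ico, Finset.mem_Ico] at h1
    rw [Finset.mem_Ico] at h2
    omega

lemma up {l n P : ℕ} {g : Lamp} (ht : Tr l n g) (hP : g.p = P) :
    ∃ p q : ℕ, (∀ j, g.f j ≠ 0 → -(p : ℤ) - 1 ≤ j ∧ j ≤ P + q + l) ∧
      P + 2 * p + 2 * q + viol (P + 1) l (cOf (P + 1) g.f) (sOf (P + 1) g.f) (bOf (P + 1) g.f) ≤
        n + (l + 3) := by
  obtain ⟨lo, hi, N, LA, LB, M, h, k, t⟩ := ht
  refine ⟨(-lo).toNat, (hi - P).toNat, ?_, ?_⟩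
  · intro j hj
    have l0 := t.lo0
    have ph := t.Phi
    rw [hP] at ph
    by_contra hcon
    apply hj
    have hout : j < lo - 1 ∨ hi + l < j := by omega
    have hj0 : N j = 0 := t.Nout j (by omega)
    have hj1 : N (j + 1) = 0 := t.Nout (j + 1) (by omega)
    have hj2 : N (j - l) = 0 := t.Nout (j - l) (by omega)
    obtain ⟨hL1, hL2⟩ := t.Lout j (by omega)
    rw [t.val j, (t.zero j hj0).1, (t.zero _ hj1).2.1, (t.zero _ hj2).2.2, hL1, hL2]
    simp
  · have h1 := viol_le t hP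
    have h2 := track_len t hP
    have h3 := t.len
    omega

end Pool.Agent.H38.GR
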