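import Pool.Agent.H38.GR.Lamp
import Pool.Agent.H38.GR.Up

/-! Short words for the elements of a family. -/

namespace Pool.Agent.H38.GR

open Finset

set_option linter.unusedSectionVars false
set_option linter.unusedVariables false

/-- one step of the walk -/
noncomputable def blkEl (l : ℕ) (m : V) (a b : ZMod 2) : Lamp :=
  (if a = 1 then Ly else 1) * (if b = 1 then Lz else 1) * T l m

lemma blkEl_p (l : ℕ) (m : V) (a b : ZMod 2) : (blkEl l m a b).p = 1 := by
  unfold blkEl
  split_ifs <;> rfl

lemma lampY_f (a : ZMod 2) (j : ℤ) : (if a = 1 then Ly else 1 : Lamp).f j = if j = 0 then a • ey else 0 := by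
  rcases z2 a with rfl | rfl
  · rw [if_neg zero_ne_one2]; simp
  · rw [if_pos rfl]
    show (Finsupp.single 0 ey : ℤ →₀ V) j = _
    rw [Finsupp.single_apply, one_smul]
    simp only [eq_comm]

lemma lampZ_f (a : ZMod 2) (j : ℤ) : (if a = 1 then Lz else 1 : Lamp).f j = if j = 0 then a • ez else 0 := by
  rcases z2 a with rfl | rfl
  · rw [if_neg zero_ne_one2]; simp
  · rw [if_pos rfl]
    show (Finsupp.single 0 ez : ℤ →₀ V) j = _
    rw [Finsupp.single_apply, one_smul]
    simp only [eq_comm]

lemma lampY_p (a : ZMod 2) : (if a = 1 then Ly else 1 : Lamp).p = 0 := by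
  split_ifs <;> rfl

lemma lampZ_p (a : ZMod 2) : (if a = 1 then Lz else 1 : Lamp).p = 0 := by
  split_ifs <;> rfl

lemma blkEl_f (l : ℕ) (m : V) (a b : ZMod 2) (j : ℤ) : (blkEl l m a b).f j =
    (if j = 0 then tailC m + a • ey + b • ez else 0) + (if j = -1 then hC m • ey else 0) +
      (if j = l then kC m • ez else 0) := by
  unfold blkEl
  rw [mul_f_apply, mul_f_apply, mul_p, lampY_p, lampZ_p, lampY_f, sub_zero, lampZ_f, add_zero,
    sub_zero]
  show _ + gl l m j = _
  rw [gl_apply]
  by_cases h1 : j = 0
  · rw [if_pos h1, if_pos h1, if_pos h1, if_pos h1]; abel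
  · rw [if_neg h1, if_neg h1, if_neg h1, if_neg h1]; abel

/-- the walk -/
noncomputable def run (l : ℕ) (m : ℕ → V) (a b : ℕ → ZMod 2) : ℕ → Lamp
  | 0 => 1
  | n + 1 => run l m a b n * blkEl l (m n) (a n) (b n)

lemma run_p (l : ℕ) (m : ℕ → V) (a b : ℕ → ZMod 2) (n : ℕ) : (run l m a b n).p = n := by
  induction n with
  | zero => rfl
  | succ n ih => rw [run, mul_p, ih, blkEl_p]; push_cast; ring

lemma run_f (l : ℕ) (m : ℕ → V) (a b : ℕ → ZMod 2) (n : ℕ) (j : ℤ) : (run l m a b n).f j =
    ∑ i ∈ range n, ((if j = i then tailC (m i) + a i • ey + b i • ez else 0) +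
      (if j + 1 = i then hC (m i) • ey else 0) + (if j - l = i then kC (m i) • ez else 0)) := by
  induction n with
  | zero => rfl
  | succ n ih =>
    rw [Finset.sum_range_succ, ← ih, run, mul_f_apply, blkEl_f, run_p]
    have e1 : (j - n = 0) ↔ (j = n) := by omega
    have e2 : (j - n = -1) ↔ (j + 1 = n) := by omega
    have e3 : (j - n = l) ↔ (j - l = n) := by omega
    simp only [e1, e2, e3]

lemma run_ball (l : ℕ) (m : ℕ → V) (a b : ℕ → ZMod 2) (n : ℕ) : run l m a b n ∈ ball (gen l)
    (n + ∑ i ∈ range n, ((if a i = 1 then 1 else 0) + (if b i = 1 then 1 else 0))) := by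
  induction n with
  | zero => exact one_mem_ball _ _
  | succ n ih =>
    have h1 : (if a n = 1 then Ly else 1) ∈ ball (gen l) (if a n = 1 then 1 else 0) := by
      split_ifs
      · exact mem_ball_one _ ((mem_gen l _).2 (Or.inr (Or.inl rfl)))
      · exact one_mem_ball _ _
    have h2 : (if b n = 1 then Lz else 1) ∈ ball (gen l) (if b n = 1 then 1 else 0) := by
      split_ifs
      · exact mem_ball_one _ ((mem_gen l _).2 (Or.inr (Or.inr rfl)))
      · exact one_mem_ball _ _
    have h3 : T l (m n) ∈ ball (gen l) 1 := mem_ball_one _ ((mem_gen l _).2 (Or.inl ⟨m n, rfl⟩))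
    have h4 := mul_mem_ball _ ih (mul_mem_ball _ (mul_mem_ball _ h1 h2) h3)
    rw [run]
    refine ball_mono _ (le_of_eq ?_) h4
    rw [Finset.sum_range_succ]; ring

lemma sum_range_zmod (R : ℕ) [NeZero R] {A : Type*} [AddCommMonoid A] (F : ZMod R → A) :
    ∑ i ∈ range R, F (i : ZMod R) = ∑ j : ZMod R, F j := by
  refine Finset.sum_nbij' (fun i => (i : ZMod R)) (fun j => j.val) ?_ ?_ ?_ ?_ ?_
  · intro i _; exact Finset.mem_univ _
  · intro j _; exact Finset.mem_range.2 (ZMod.val_lt j)
  · intro i hi; exact ZMod.val_natCast_of_lt (Finset.mem_range.1 hi)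
  · intro j _; exact ZMod.natCast_zmod_val j
  · intro i _; rfl

section Conf

variable (R l : ℕ) [NeZero R] (c : ZMod R → ZMod 2) (s β : Sp R → ZMod 2)

/-- the free bits of the letters -/
def fre (u : Sp R) : ZMod 2 :=
  if s u = 0 then β u else
    (if s ((nxt R l c).symm u) = 1 then β ((nxt R l c).symm u) else 0)

/-- the letters -/
def let' (j : ℕ) : V :=
  ![s ((j : ZMod R), true), s ((j : ZMod R), false), c (j : ZMod R),
    fre R l c s β ((j : ZMod R), true), fre R l c s β ((j : ZMod R), false)]

/-- the lamps `y` -/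
def laY (j : ℕ) : ZMod 2 := β ((j : ZMod R), true) +
  (1 + s ((j : ZMod R), true)) * fre R l c s β ((j : ZMod R), true) +
  (if j + 1 < R then hC (let' R l c s β (j + 1)) else 0)

/-- the lamps `z` -/
def laZ (j : ℕ) : ZMod 2 := β ((j : ZMod R), false) +
  (1 + s ((j : ZMod R), false)) * fre R l c s β ((j : ZMod R), false) +
  (if l ≤ j then kC (let' R l c s β (j - l)) else 0)

/-- indicator of a violated edge -/
def vio (u : Sp R) : ℕ := if β u = 1 ∧ s u = 1 ∧ s (nxt R l c u) = 0 then 1 else 0

lemma fre_key (u : Sp R) : β u + (1 + s u) * fre R l c s β u +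
    s (nxt R l c u) * fre R l c s β (nxt R l c u) = 1 → vio R l c s β u = 1 := by
  have h11 : (1 : ZMod 2) + 1 = 0 := by decide
  unfold fre vio
  rw [Equiv.symm_apply_apply]
  rcases z2 (s u) with h1 | h1 <;> rcases z2 (s (nxt R l c u)) with h2 | h2 <;>
    rcases z2 (β u) with h3 | h3 <;> rw [h1, h2, h3] <;> simp [h11]

lemma laY_le (j : ℕ) (hj : j < R) : (if laY R l c s β j = 1 then 1 else 0) ≤
    vio R l c s β ((j : ZMod R), true) + (if j + 1 = R then 1 else 0) := by
  by_cases h : j + 1 < R
  · by_cases h1 : laY R l c s β j = 1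
    swap
    · rw [if_neg h1]; exact Nat.zero_le _
    rw [if_pos h1]
    have h2 : vio R l c s β ((j : ZMod R), true) = 1 := by
      apply fre_key
      refine Eq.trans ?_ h1
      unfold laY
      rw [if_pos h, nxt_true]
      congr 1
      unfold hC let'
      have h3 : ((j + 1 : ℕ) : ZMod R) = (j : ZMod R) + 1 := by push_cast; rfl
      simp only [h3]
      show _ = (1 + c ((j : ZMod R) + 1)) * s ((j : ZMod R) + 1, true) *
        fre R l c s β ((j : ZMod R) + 1, true) +
        c ((j : ZMod R) + 1) * s ((j : ZMod R) + 1, false) * fre R l c s β ((j : ZMod R) + 1, false)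
      rcases z2 (c ((j : ZMod R) + 1)) with h4 | h4
      · rw [h4, if_neg zero_ne_one2]; ring
      · rw [h4, if_pos rfl, show (1 : ZMod 2) + 1 = 0 by decide]; ring
    omega
  · have h1 : j + 1 = R := by omega
    rw [if_pos h1]
    split_ifs <;> omega

lemma laZ_le (j : ℕ) (hj : j < R) : (if laZ R l c s β j = 1 then 1 else 0) ≤
    vio R l c s β ((j : ZMod R), false) + (if j < l then 1 else 0) := by
  by_cases h : l ≤ j
  · by_cases h1 : laZ R l c s β j = 1
    swap
    · rw [if_neg h1]; exact Nat.zero_le _
    rw [if_pos h1]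
    have h2 : vio R l c s β ((j : ZMod R), false) = 1 := by
      apply fre_key
      refine Eq.trans ?_ h1
      unfold laZ
      rw [if_pos h, nxt_false]
      congr 1
      unfold kC let'
      have h3 : ((j - l : ℕ) : ZMod R) = (j : ZMod R) - l := by rw [Nat.cast_sub h]
      simp only [h3]
      show _ = c ((j : ZMod R) - l) * s ((j : ZMod R) - l, true) *
        fre R l c s β ((j : ZMod R) - l, true) +
        (1 + c ((j : ZMod R) - l)) * s ((j : ZMod R) - l, false) *
          fre R l c s β ((j : ZMod R) - l, false)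
      rcases z2 (c ((j : ZMod R) - l)) with h4 | h4
      · rw [h4, if_neg zero_ne_one2]; ring
      · rw [h4, if_pos rfl, show (1 : ZMod 2) + 1 = 0 by decide]; ring
    omega
  · rw [if_pos (by omega : j < l)]
    split_ifs <;> omega

lemma sum_lamps : ∑ i ∈ range R, ((if laY R l c s β i = 1 then 1 else 0) +
    (if laZ R l c s β i = 1 then 1 else 0)) ≤ viol R l c s β + (l + 1) := by
  have h1 : ∑ i ∈ range R, ((if laY R l c s β i = 1 then 1 else 0) +
      (if laZ R l c s β i = 1 then 1 else 0)) ≤
      ∑ i ∈ range R, ((vio R l c s β ((i : ZMod R), true) + (if i + 1 = R then 1 else 0)) +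
        (vio R l c s β ((i : ZMod R), false) + (if i < l then 1 else 0))) := by
    refine Finset.sum_le_sum fun i hi => ?_
    rw [Finset.mem_range] at hi
    exact add_le_add (laY_le R l c s β i hi) (laZ_le R l c s β i hi)
  refine h1.trans ?_
  rw [Finset.sum_add_distrib, Finset.sum_add_distrib, Finset.sum_add_distrib]
  have e1 := sum_range_zmod R (fun j => vio R l c s β (j, true))
  have e2 := sum_range_zmod R (fun j => vio R l c s β (j, false))
  rw [e1, e2]
  have e3 : viol R l c s β = ∑ j : ZMod R, vio R l c s β (j, true) +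
      ∑ j : ZMod R, vio R l c s β (j, false) := by
    unfold viol
    rw [Finset.card_filter, Fintype.sum_prod_type]
    simp only [Fintype.sum_bool]
    rw [Finset.sum_add_distrib]
    rfl
  rw [e3]
  have e4 : ∑ i ∈ range R, (if i + 1 = R then 1 else 0) ≤ 1 := by
    rw [← Finset.card_filter, Finset.card_le_one]
    intro x hx y hy
    simp only [Finset.mem_filter] at hx hy
    omega
  have e5 : ∑ i ∈ range R, (if i < l then 1 else 0) ≤ l := by
    rw [← Finset.card_filter]
    have : (range R).filter (fun i => i < l) ⊆ range l := by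
      intro x hx
      simp only [Finset.mem_filter] at hx
      exact Finset.mem_range.2 hx.2
    simpa using Finset.card_le_card this
  omega

/-- the element of the configuration -/
noncomputable def el : Lamp := run l (let' R l c s β) (laY R l c s β) (laZ R l c s β) R

lemma el_ball : el R l c s β ∈ ball (gen l) (R + viol R l c s β + (l + 1)) := by
  refine ball_mono _ ?_ (run_ball l (let' R l c s β) (laY R l c s β) (laZ R l c s β) R)
  have := sum_lamps R l c s β
  omega

lemma el_p : (el R l c s β).p = R := run_p _ _ _ _ _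

lemma el_f (j : ℕ) (hj : j < R) : (el R l c s β).f j =
    ![s ((j : ZMod R), true), s ((j : ZMod R), false), c (j : ZMod R), β ((j : ZMod R), true),
      β ((j : ZMod R), false)] := by
  unfold el
  rw [run_f, Finset.sum_add_distrib, Finset.sum_add_distrib]
  have e1 : ∑ i ∈ range R, (if ((j : ℕ) : ℤ) = i then tailC (let' R l c s β i) +
      laY R l c s β i • ey + laZ R l c s β i • ez else 0) = tailC (let' R l c s β j) +
      laY R l c s β j • ey + laZ R l c s β j • ez := by
    rw [Finset.sum_eq_single_of_mem j (Finset.mem_range.2 hj)]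
    · rw [if_pos rfl]
    · intro i _ hi
      rw [if_neg]
      intro h; exact hi (by exact_mod_cast h.symm)
  have e2 : ∑ i ∈ range R, (if ((j : ℕ) : ℤ) + 1 = i then hC (let' R l c s β i) • ey else 0) =
      (if j + 1 < R then hC (let' R l c s β (j + 1)) else 0) • ey := by
    by_cases h : j + 1 < R
    · rw [Finset.sum_eq_single_of_mem (j + 1) (Finset.mem_range.2 h), if_pos h, if_pos]
      · push_cast; ring
      · intro i _ hi
        rw [if_neg]
        intro h'; exact hi (by omega)
    · rw [if_neg h, zero_smul]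
      refine Finset.sum_eq_zero fun i hi => ?_
      rw [Finset.mem_range] at hi
      rw [if_neg]; omega
  have e3 : ∑ i ∈ range R, (if ((j : ℕ) : ℤ) - l = i then kC (let' R l c s β i) • ez else 0) =
      (if l ≤ j then kC (let' R l c s β (j - l)) else 0) • ez := by
    by_cases h : l ≤ j
    · rw [Finset.sum_eq_single_of_mem (j - l) (Finset.mem_range.2 (by omega)), if_pos h, if_pos]
      · rw [Nat.cast_sub h]
      · intro i _ hi
        rw [if_neg]
        intro h'; exact hi (by omega)
    · rw [if_neg h, zero_smul]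
      refine Finset.sum_eq_zero fun i hi => ?_
      rw [if_neg]; omega
  rw [e1, e2, e3]
  unfold laY laZ
  generalize (if j + 1 < R then hC (let' R l c s β (j + 1)) else 0) = A
  generalize (if l ≤ j then kC (let' R l c s β (j - l)) else 0) = B
  have hA : A + A = 0 := by revert A; decide
  have hB : B + B = 0 := by revert B; decide
  have key : ∀ x y z w : ZMod 2, y + (x + y + z) + z = x := by decide
  funext i
  simp only [Pi.add_apply, Pi.smul_apply, smul_eq_mul]
  fin_cases i
  · show s _ + _ * (0 : ZMod 2) + _ * (0 : ZMod 2) + _ * (0 : ZMod 2) + _ * (0 : ZMod 2) = s _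
    ring
  · show s _ + _ * (0 : ZMod 2) + _ * (0 : ZMod 2) + _ * (0 : ZMod 2) + _ * (0 : ZMod 2) = s _
    ring
  · show c _ + _ * (0 : ZMod 2) + _ * (0 : ZMod 2) + _ * (0 : ZMod 2) + _ * (0 : ZMod 2) = c _
    ring
  · show (1 + s ((j : ZMod R), true)) * fre R l c s β ((j : ZMod R), true) +
      (β ((j : ZMod R), true) +
        (1 + s ((j : ZMod R), true)) * fre R l c s β ((j : ZMod R), true) + A) * (1 : ZMod 2) +
      _ * (0 : ZMod 2) + A * (1 : ZMod 2) + _ * (0 : ZMod 2) = β ((j : ZMod R), true)
    rw [mul_one, mul_one, mul_zero, mul_zero, add_zero, add_zero]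
    exact key _ _ _ 0
  · show (1 + s ((j : ZMod R), false)) * fre R l c s β ((j : ZMod R), false) +
      _ * (0 : ZMod 2) +
      (β ((j : ZMod R), false) +
        (1 + s ((j : ZMod R), false)) * fre R l c s β ((j : ZMod R), false) + B) * (1 : ZMod 2) +
       _ * (0 : ZMod 2) + B * (1 : ZMod 2) = β ((j : ZMod R), false)
    rw [mul_one, mul_one, mul_zero, mul_zero, add_zero, add_zero]
    exact key _ _ _ 0

lemma el_val (j : ZMod R) : (el R l c s β).f (j.val : ℤ) =
    ![s (j, true), s (j, false), c j, β (j, true), β (j, false)] := by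
  rw [el_f R l c s β j.val (ZMod.val_lt j), ZMod.natCast_zmod_val]

lemma cOf_el : cOf R (el R l c s β).f = c := by
  funext j; unfold cOf; rw [el_val]; rfl

lemma sOf_el : sOf R (el R l c s β).f = s := by
  funext u
  obtain ⟨j, b⟩ := u
  unfold sOf
  cases b
  · simp only [Bool.false_eq_true, if_false]; rw [el_val]; rfl
  · simp only [if_true]; rw [el_val]; rfl

lemma bOf_el : bOf R (el R l c s β).f = β := by
  funext u
  obtain ⟨j, b⟩ := u
  unfold bOf
  cases b
  · simp only [Bool.false_eq_true, if_false]; rw [el_val]; rfl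
  · simp only [if_true]; rw [el_val]; rfl

end Conf

end Pool.Agent.H38.GR
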