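import Pool.Agent.H38.GR.Lamp

/-! The wreath product is generated by the sets `gen l`, and it is linear. -/

namespace Pool.Agent.H38.GR

open Finset

set_option linter.unusedSectionVars false
set_option linter.unusedVariables false

section Gen

variable (l : ℕ)

/-- the subgroup generated by `gen l` -/
noncomputable abbrev HH : Subgroup Lamp := Subgroup.closure (gen l : Set Lamp)

lemma T_mem (m : V) : T l m ∈ HH l := Subgroup.subset_closure ((mem_gen l _).2 (Or.inl ⟨m, rfl⟩))
lemma Ly_mem : Ly ∈ HH l := Subgroup.subset_closure ((mem_gen l _).2 (Or.inr (Or.inl rfl)))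
lemma Lz_mem : Lz ∈ HH l := Subgroup.subset_closure ((mem_gen l _).2 (Or.inr (Or.inr rfl)))

lemma T_zero : T l 0 = ⟨0, 1⟩ := by
  unfold T gl
  have h1 : tailC 0 = 0 := by
    unfold tailC; funext i; fin_cases i <;> simp
  have h2 : hC 0 = 0 := by simp [hC]
  have h3 : kC 0 = 0 := by simp [kC]
  rw [h1, h2, h3]; simp

lemma t_mem : (⟨0, 1⟩ : Lamp) ∈ HH l := by
  rw [← T_zero l]; exact T_mem l 0

lemma tpow (n : ℕ) : (⟨0, 1⟩ : Lamp) ^ n = ⟨0, n⟩ := by
  induction n with
  | zero => rfl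
  | succ n ih =>
    rw [pow_succ, ih]
    refine Lamp.ext (Finsupp.ext fun j => ?_) (by show (n : ℤ) + 1 = _; push_cast; ring)
    rw [mul_f_apply]
    simp

lemma t_mem' (n : ℤ) : (⟨0, n⟩ : Lamp) ∈ HH l := by
  rcases Int.eq_nat_or_neg n with ⟨k, rfl | rfl⟩
  · rw [← tpow]; exact Subgroup.pow_mem _ (t_mem l) k
  · have : (⟨0, -(k : ℤ)⟩ : Lamp) = ((⟨0, 1⟩ : Lamp) ^ k)⁻¹ := by
      rw [tpow]
      refine Lamp.ext (Finsupp.ext fun j => ?_) (by rw [inv_p])
      rw [inv_f_apply]; simp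
    rw [this]
    exact Subgroup.inv_mem _ (Subgroup.pow_mem _ (t_mem l) k)

lemma mul_lamp (f g : ℤ →₀ V) : (⟨f, 0⟩ : Lamp) * ⟨g, 0⟩ = ⟨f + g, 0⟩ := by
  refine Lamp.ext (Finsupp.ext fun j => ?_) (by show (0 : ℤ) + 0 = 0; ring)
  rw [mul_f_apply]
  simp

lemma single_mem (v : V) : (⟨Finsupp.single 0 v, 0⟩ : Lamp) ∈ HH l := by
  have h1 : (⟨Finsupp.single 0 ![v 0, v 1, v 2, 0, 0], 0⟩ : Lamp) =
      T l ![v 0, v 1, v 2, 0, 0] * ⟨0, -1⟩ := by
    have e1 : tailC ![v 0, v 1, v 2, 0, 0] = ![v 0, v 1, v 2, 0, 0] := by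
      unfold tailC; funext i; fin_cases i <;> simp
    have e2 : hC ![v 0, v 1, v 2, 0, 0] = 0 := by simp [hC]
    have e3 : kC ![v 0, v 1, v 2, 0, 0] = 0 := by simp [kC]
    refine Lamp.ext (Finsupp.ext fun j => ?_) (by show (0 : ℤ) = 1 + -1; ring)
    rw [mul_f_apply]
    show _ = gl l _ j + (0 : ℤ →₀ V) _
    unfold gl
    rw [e1, e2, e3]; simp
  have h2 : (⟨Finsupp.single 0 ![v 0, v 1, v 2, 0, 0], 0⟩ : Lamp) ∈ HH l := by
    rw [h1]; exact Subgroup.mul_mem _ (T_mem l _) (t_mem' l _)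
  have h3 : (⟨Finsupp.single 0 (v 3 • ey), 0⟩ : Lamp) ∈ HH l := by
    rcases z2 (v 3) with h | h
    · rw [h, zero_smul, Finsupp.single_zero]; exact Subgroup.one_mem _
    · rw [h, one_smul]; exact Ly_mem l
  have h4 : (⟨Finsupp.single 0 (v 4 • ez), 0⟩ : Lamp) ∈ HH l := by
    rcases z2 (v 4) with h | h
    · rw [h, zero_smul, Finsupp.single_zero]; exact Subgroup.one_mem _
    · rw [h, one_smul]; exact Lz_mem l
  have h5 := Subgroup.mul_mem _ (Subgroup.mul_mem _ h2 h3) h4
  rw [mul_lamp, mul_lamp, ← Finsupp.single_add, ← Finsupp.single_add] at h5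
  have h6 : ![v 0, v 1, v 2, 0, 0] + v 3 • ey + v 4 • ez = v := by
    funext i
    simp only [Pi.add_apply, Pi.smul_apply, smul_eq_mul]
    fin_cases i
    · show v 0 + _ * (0 : ZMod 2) + _ * (0 : ZMod 2) = v 0
      ring
    · show v 1 + _ * (0 : ZMod 2) + _ * (0 : ZMod 2) = v 1
      ring
    · show v 2 + _ * (0 : ZMod 2) + _ * (0 : ZMod 2) = v 2
      ring
    · show 0 + _ * (1 : ZMod 2) + _ * (0 : ZMod 2) = v 3
      ring
    · show 0 + _ * (0 : ZMod 2) + _ * (1 : ZMod 2) = v 4
      ring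
  rw [h6] at h5
  exact h5

lemma single_mem' (j : ℤ) (v : V) : (⟨Finsupp.single j v, 0⟩ : Lamp) ∈ HH l := by
  have : (⟨Finsupp.single j v, 0⟩ : Lamp) = ⟨0, j⟩ * ⟨Finsupp.single 0 v, 0⟩ * ⟨0, -j⟩ := by
    refine Lamp.ext (Finsupp.ext fun i => ?_) (by show (0 : ℤ) = j + 0 + -j; ring)
    rw [mul_f_apply, mul_f_apply]
    show (Finsupp.single j v : ℤ →₀ V) i = 0 + (Finsupp.single 0 v : ℤ →₀ V) (i - j) + 0
    rw [Finsupp.single_apply, Finsupp.single_apply, zero_add, add_zero]
    have e : (0 = i - j) ↔ (j = i) := by omega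
    simp only [e]
  rw [this]
  exact Subgroup.mul_mem _ (Subgroup.mul_mem _ (t_mem' l j) (single_mem l v)) (t_mem' l _)

lemma lamp_mem (f : ℤ →₀ V) : (⟨f, 0⟩ : Lamp) ∈ HH l := by
  induction f using Finsupp.induction_linear with
  | zero => exact Subgroup.one_mem _
  | add f g hf hg => rw [← mul_lamp]; exact Subgroup.mul_mem _ hf hg
  | single j v => exact single_mem' l j v

lemma closure_gen : Subgroup.closure (gen l : Set Lamp) = ⊤ := by
  rw [eq_top_iff]
  intro g _
  have : g = ⟨g.f, 0⟩ * ⟨0, g.p⟩ := by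
    refine Lamp.ext (Finsupp.ext fun i => ?_) (by show g.p = 0 + g.p; ring)
    rw [mul_f_apply]; simp
  rw [this]
  exact Subgroup.mul_mem _ (lamp_mem l _) (t_mem' l _)

end Gen

section Linear

/-- the field with 32 elements -/
abbrev FF := GaloisField 2 5

/-- Laurent series over the field with 32 elements -/
abbrev KK := LaurentSeries FF

lemma exists_iso : Nonempty (V ≃ₗ[ZMod 2] FF) := by
  refine ⟨LinearEquiv.ofFinrankEq V FF ?_⟩
  rw [Module.finrank_fin_fun, GaloisField.finrank 2 (by norm_num)]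

/-- an additive isomorphism from the lamps to the field with 32 elements -/
noncomputable def iso : V ≃ₗ[ZMod 2] FF := exists_iso.some

/-- the Laurent series of a configuration -/
noncomputable def ser (f : ℤ →₀ V) : KK :=
  HahnSeries.ofFinsupp (f.mapRange iso (map_zero iso))

lemma ser_coeff (f : ℤ →₀ V) (j : ℤ) : (ser f).coeff j = iso (f j) := by
  unfold ser
  rw [HahnSeries.coeff_ofFinsupp, Finsupp.mapRange_apply]

lemma ser_inj : Function.Injective ser := by
  intro f g h
  ext1 j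
  have := congrArg (fun x : KK => x.coeff j) h
  simp only [ser_coeff] at this
  exact iso.injective this

lemma ser_mul (f g : ℤ →₀ V) (p : ℤ) : ser (f + shift p g) = HahnSeries.single p 1 * ser g + ser f := by
  ext j
  rw [HahnSeries.coeff_add, ser_coeff, ser_coeff, Finsupp.add_apply, shift_apply, map_add, add_comm]
  congr 1
  have h := HahnSeries.coeff_single_mul_add (r := (1 : FF)) (x := ser g) (a := j - p) (b := p)
  rw [sub_add_cancel, ser_coeff, one_mul] at h
  exact h.symm

/-- the matrix of an element -/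
noncomputable def mat (g : Lamp) : Matrix (Fin 2) (Fin 2) KK :=
  !![HahnSeries.single g.p 1, ser g.f; 0, 1]

lemma mat_one : mat 1 = 1 := by
  unfold mat
  have h1 : ser (1 : Lamp).f = 0 := by
    ext j
    rw [ser_coeff]; simp
  rw [h1, one_p, Matrix.one_fin_two]
  rfl

lemma mat_mul (g h : Lamp) : mat (g * h) = mat g * mat h := by
  unfold mat
  rw [Matrix.mul_fin_two, mul_f, mul_p, ser_mul, HahnSeries.single_mul_single]
  simp

/-- the linear representation -/
noncomputable def rep : Lamp →* GL (Fin 2) KK :=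
  MonoidHom.toHomUnits
    { toFun := mat
      map_one' := mat_one
      map_mul' := mat_mul }

lemma rep_inj : Function.Injective rep := by
  intro g h e
  have e1 : mat g = mat h := congrArg (fun x : GL (Fin 2) KK => (x : Matrix (Fin 2) (Fin 2) KK)) e
  unfold mat at e1
  have e2 : (HahnSeries.single g.p (1 : FF) : KK) = HahnSeries.single h.p 1 := by
    simpa using congrFun (congrFun e1 0) 0
  have e3 : ser g.f = ser h.f := by
    simpa using congrFun (congrFun e1 0) 1
  refine Lamp.ext (ser_inj e3) ?_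
  by_contra hne
  have := congrArg (fun x : KK => x.coeff g.p) e2
  simp only [HahnSeries.coeff_single_same] at this
  rw [HahnSeries.coeff_single_of_ne hne] at this
  exact one_ne_zero this

end Linear

end Pool.Agent.H38.GR
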