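import Pool.Agent.H38.GR.Count
import Pool.Agent.H38.GR.Linear

/-! The growth rates of the generating sets `gen l` have no least element. -/

namespace Pool.Agent.H38.GR

open Filter Topology

set_option linter.unusedSectionVars false
set_option linter.unusedVariables false

/-- the function which determines the limit -/
noncomputable def AA (ρ : ℝ) : ℝ := 8 * (2 * ρ ^ 2 - 1) * (1 + ρ) ^ 2

lemma AA_cont : Continuous AA := by unfold AA; fun_prop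

lemma exists_root : ∃ ρ : ℝ, 7 / 10 ≤ ρ ∧ ρ ≤ 3 / 4 ∧ AA ρ = 1 := by
  have h := intermediate_value_Icc (show (7 / 10 : ℝ) ≤ 3 / 4 by norm_num) AA_cont.continuousOn
  have h1 : (1 : ℝ) ∈ Set.Icc (AA (7 / 10)) (AA (3 / 4)) := by
    unfold AA
    constructor <;> norm_num
  obtain ⟨ρ, hρ, e⟩ := h h1
  exact ⟨ρ, hρ.1, hρ.2, e⟩

lemma AA_pos {ρ : ℝ} (h0 : 0 < ρ) (h : 0 < AA ρ) : 0 < 2 * ρ ^ 2 - 1 := by
  unfold AA at h
  have h1 : 0 < (1 + ρ) ^ 2 := by positivity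
  by_contra hcon
  push Not at hcon
  nlinarith

lemma AA_mono {ρ ρ' : ℝ} (h0 : 0 < ρ) (hx : 0 < 2 * ρ ^ 2 - 1) (h : ρ < ρ') : AA ρ < AA ρ' := by
  unfold AA
  have h1 : 2 * ρ ^ 2 - 1 < 2 * ρ' ^ 2 - 1 := by nlinarith
  have h2 : (1 + ρ) ^ 2 < (1 + ρ') ^ 2 := by nlinarith
  have h3 : 0 < (1 + ρ) ^ 2 := by positivity
  nlinarith [mul_pos (sub_pos.2 h1) h3, mul_pos (hx.trans h1) (sub_pos.2 h2)]

lemma x_le {ρ : ℝ} (h0 : 0 < ρ) (hx : 0 < 2 * ρ ^ 2 - 1) (h : AA ρ ≤ 1) : 2 * ρ ^ 2 - 1 ≤ 1 / 8 := by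
  unfold AA at h
  have h1 : 1 ≤ (1 + ρ) ^ 2 := by nlinarith
  nlinarith [mul_nonneg hx.le (sub_nonneg.2 h1)]

/-- points slightly below the root give lower bounds for the rates -/
lemma exists_below (l : ℕ) {ρ₀ : ℝ} (h1 : 7 / 10 ≤ ρ₀) (h2 : ρ₀ ≤ 3 / 4) (h3 : AA ρ₀ = 1) :
    ∃ ρ : ℝ, 0 < ρ ∧ ρ < ρ₀ ∧ 0 < 2 * ρ ^ 2 - 1 ∧
      1 ≤ (AA ρ) ^ (l + 1) * (1 + ((1 - ρ) / (1 + ρ) / 2) ^ (l + 1)) := by
  have h0 : 0 < ρ₀ := by linarith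
  have hx0 : 0 < 2 * ρ₀ ^ 2 - 1 := AA_pos h0 (by rw [h3]; norm_num)
  have c1 : ContinuousAt (fun ρ : ℝ => (AA ρ) ^ (l + 1) * (1 + ((1 - ρ) / (1 + ρ) / 2) ^ (l + 1))) ρ₀ := by
    have : ContinuousAt (fun ρ : ℝ => (1 - ρ) / (1 + ρ)) ρ₀ :=
      ContinuousAt.div (by fun_prop) (by fun_prop) (by linarith)
    have hA : ContinuousAt AA ρ₀ := AA_cont.continuousAt
    fun_prop
  have c2 : (1 : ℝ) < (AA ρ₀) ^ (l + 1) * (1 + ((1 - ρ₀) / (1 + ρ₀) / 2) ^ (l + 1)) := by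
    rw [h3, one_pow, one_mul]
    have : 0 < ((1 - ρ₀) / (1 + ρ₀) / 2) ^ (l + 1) := by
      apply pow_pos
      apply div_pos _ two_pos
      exact div_pos (by linarith) (by linarith)
    linarith
  have c3 : ContinuousAt (fun ρ : ℝ => 2 * ρ ^ 2 - 1) ρ₀ := by fun_prop
  have e1 := c1.eventually_const_lt c2
  have e2 := c3.eventually_const_lt hx0
  have e3 : ∀ᶠ ρ in 𝓝 ρ₀, 0 < ρ := eventually_gt_nhds h0
  have e4 := (e1.and (e2.and e3)).filter_mono (nhdsWithin_le_nhds (s := Set.Iio ρ₀))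
  obtain ⟨ρ, hρ, hρ'⟩ := (e4.and self_mem_nhdsWithin).exists
  exact ⟨ρ, hρ.2.2, hρ', hρ.2.1, hρ.1.le⟩

lemma AA_form {ρ : ℝ} : AA ρ = 8 * (2 * ρ ^ 2 - 1) * (1 + ρ) ^ 2 := rfl

/-- all the rates are at least eight -/
lemma rate_ge_eight (l : ℕ) (hl : 0 < l) {r : ℝ} (hr : IsGrowthRate (gen l) r) : 8 ≤ r := by
  obtain ⟨ρ₀, h1, h2, h3⟩ := exists_root
  obtain ⟨ρ, a1, a2, a3, a4⟩ := exists_below l h1 h2 h3
  have b1 := rate_ge l hl a1 (by linarith) a3 a4 hr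
  have b2 : AA ρ < 1 := h3 ▸ AA_mono a1 a3 a2
  have b3 := x_le a1 a3 b2.le
  refine le_trans ?_ b1
  rw [le_div_iff₀ a3]
  linarith

lemma no_least (l₀ : ℕ) (hl₀ : 0 < l₀) {r₀ : ℝ} (hr₀ : IsGrowthRate (gen l₀) r₀) :
    ∃ l : ℕ, 0 < l ∧ ∀ r, IsGrowthRate (gen l) r → r < r₀ := by
  obtain ⟨ρ₀, h1, h2, h3⟩ := exists_root
  obtain ⟨ρ₁, a1, a2, a3, a4⟩ := exists_below l₀ h1 h2 h3
  have b1 := rate_ge l₀ hl₀ a1 (by linarith) a3 a4 hr₀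
  obtain ⟨ρ, c1, c2⟩ := exists_between a2
  have c0 : 0 < ρ := a1.trans c1
  have c3 : 0 < 2 * ρ ^ 2 - 1 := by nlinarith
  have c4 : AA ρ < 1 := h3 ▸ AA_mono c0 c3 c2
  have c5 : 0 < AA ρ := by unfold AA; positivity
  obtain ⟨l, hl⟩ := exists_pow_lt_of_lt_one (show (0 : ℝ) < 1 / 2 by norm_num) c4
  refine ⟨l + 1, Nat.succ_pos l, fun r hr => ?_⟩
  have c6 : AA ρ ^ (l + 1) * 2 ≤ 1 := by
    have : AA ρ ^ (l + 1) ≤ AA ρ ^ l := pow_le_pow_of_le_one c5.le c4.le (Nat.le_succ l)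
    linarith
  have c7 := x_le c0 c3 c4.le
  have d1 := rate_le (l + 1) (Nat.succ_pos l) c0 (by linarith) c3 (by nlinarith) c4.le c6 hr
  have d2 : 1 / (2 * ρ ^ 2 - 1) < 1 / (2 * ρ₁ ^ 2 - 1) := by
    rw [div_lt_div_iff₀ c3 a3]; nlinarith
  linarith

/-- a strictly decreasing sequence of growth rates -/
lemma exists_seq : ∃ (l : ℕ → ℕ) (r : ℕ → ℝ), (∀ n, 0 < l n ∧ IsGrowthRate (gen (l n)) (r n)) ∧
    StrictAnti r := by
  classical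
  have hrate : ∀ l : ℕ, ∃ r : ℝ, IsGrowthRate (gen l) r := fun l => exists_growthRate _
  choose e he using hrate
  have hstep : ∀ l : {l : ℕ // 0 < l}, ∃ l' : {l : ℕ // 0 < l}, e l' < e l := by
    intro l
    obtain ⟨l', h1, h2⟩ := no_least l l.2 (he l)
    exact ⟨⟨l', h1⟩, h2 _ (he l')⟩
  choose nx hnx using hstep
  let sq : ℕ → {l : ℕ // 0 < l} := fun n => nx^[n] ⟨1, one_pos⟩
  refine ⟨fun n => sq n, fun n => e (sq n), fun n => ⟨(sq n).2, he _⟩, ?_⟩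
  refine strictAnti_nat_of_succ_lt fun n => ?_
  have : sq (n + 1) = nx (sq n) := Function.iterate_succ_apply' nx n _
  simp only [this]
  exact hnx _

end Pool.Agent.H38.GR
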