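import Pool.Agent.H38.GR.Defs

/-! Basic facts on growth rates. -/

namespace Pool.Agent.H38.GR

open Filter Topology

section Basic

variable {G : Type*} [Group G] (S : Finset G)

lemma one_mem_ball (n : ℕ) : (1 : G) ∈ ball S n := ⟨[], by simp, by simp, by simp⟩

lemma ball_add (m n : ℕ) : ball S (m + n) ⊆ Set.image2 (· * ·) (ball S m) (ball S n) := by
  rintro g ⟨w, hw, hS, rfl⟩
  refine ⟨(w.take m).prod, ⟨w.take m, by simp, fun x hx => hS x (List.mem_of_mem_take hx), rfl⟩,
    (w.drop m).prod, ⟨w.drop m, ?_, fun x hx => hS x (List.mem_of_mem_drop hx), rfl⟩, ?_⟩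
  · rw [List.length_drop]; omega
  · simp only [← List.prod_append, List.take_append_drop]

lemma ball_mono {m n : ℕ} (h : m ≤ n) : ball S m ⊆ ball S n := by
  rintro g ⟨w, hw, hS, rfl⟩
  exact ⟨w, hw.trans h, hS, rfl⟩

lemma mul_mem_ball {m n : ℕ} {g h : G} (hg : g ∈ ball S m) (hh : h ∈ ball S n) :
    g * h ∈ ball S (m + n) := by
  obtain ⟨w, hw, hS, rfl⟩ := hg
  obtain ⟨v, hv, hS', rfl⟩ := hh
  refine ⟨w ++ v, by rw [List.length_append]; omega, ?_, by simp⟩
  intro x hx
  rcases List.mem_append.1 hx with h | h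
  · exact hS x h
  · exact hS' x h

lemma mem_ball_one {g : G} (h : g ∈ S) : g ∈ ball S 1 := ⟨[g], by simp, by simp [h], by simp⟩

lemma inv_mem_ball {n : ℕ} {g : G} (h : g ∈ ball S n) : g⁻¹ ∈ ball S n := by
  obtain ⟨w, hw, hS, rfl⟩ := h
  refine ⟨(w.map (·⁻¹)).reverse, by simpa using hw, ?_, ?_⟩
  · intro x hx
    simp only [List.mem_reverse, List.mem_map] at hx
    obtain ⟨y, hy, rfl⟩ := hx
    rcases hS y hy with h | h
    · right; simpa using h
    · left; exact h
  · rw [List.prod_inv_reverse]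

lemma ball_zero : ball S 0 = {1} := by
  ext g
  constructor
  · rintro ⟨w, hw, -, rfl⟩
    have : w = [] := List.length_eq_zero_iff.1 (by omega)
    simp [this]
  · rintro rfl
    exact one_mem_ball S 0

lemma ball_one_finite : (ball S 1).Finite := by
  classical
  refine Set.Finite.subset (((S ∪ S.image (·⁻¹)) ∪ {1} : Finset G).finite_toSet) ?_
  rintro g ⟨w, hw, hS, rfl⟩
  match w, hw, hS with
  | [], _, _ => simp
  | [x], _, hS =>
    have := hS x (by simp)
    simp only [List.prod_cons, List.prod_nil, mul_one, Finset.coe_union, Finset.coe_image,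
      Finset.coe_singleton, Set.mem_union, Finset.mem_coe, Set.mem_image, Set.mem_singleton_iff]
    rcases this with h | h
    · left; left; exact h
    · left; right; exact ⟨x⁻¹, h, by simp⟩

lemma ball_finite (n : ℕ) : (ball S n).Finite := by
  induction n with
  | zero => rw [ball_zero]; exact Set.finite_singleton 1
  | succ n ih => exact (Set.Finite.image2 _ ih (ball_one_finite S)).subset (ball_add S n 1)

lemma ncard_pos (n : ℕ) : 0 < (ball S n).ncard :=
  (Set.ncard_pos (ball_finite S n)).2 ⟨1, one_mem_ball S n⟩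

lemma ncard_add (m n : ℕ) : (ball S (m + n)).ncard ≤ (ball S m).ncard * (ball S n).ncard := by
  refine (Set.ncard_le_ncard (ball_add S m n)
    (Set.Finite.image2 _ (ball_finite S m) (ball_finite S n))).trans ?_
  rw [← Set.image_prod, ← Set.ncard_prod]
  exact Set.ncard_image_le ((ball_finite S m).prod (ball_finite S n))

lemma exists_growthRate : ∃ r : ℝ, IsGrowthRate S r := by
  have hsub : Subadditive (fun n : ℕ => Real.log ((ball S n).ncard : ℝ)) := by
    intro m n
    have h1 : (0 : ℝ) < (ball S m).ncard := by exact_mod_cast ncard_pos S m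
    have h2 : (0 : ℝ) < (ball S n).ncard := by exact_mod_cast ncard_pos S n
    have h3 : (0 : ℝ) < (ball S (m + n)).ncard := by exact_mod_cast ncard_pos S (m + n)
    rw [← Real.log_mul h1.ne' h2.ne']
    refine Real.log_le_log h3 ?_
    exact_mod_cast ncard_add S m n
  have hbdd : BddBelow (Set.range fun n : ℕ => Real.log ((ball S n).ncard : ℝ) / n) := by
    refine ⟨0, ?_⟩
    rintro _ ⟨n, rfl⟩
    have h1 : (1 : ℝ) ≤ (ball S n).ncard := by exact_mod_cast ncard_pos S n
    exact div_nonneg (Real.log_nonneg h1) (Nat.cast_nonneg n)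
  have h := hsub.tendsto_lim hbdd
  refine ⟨Real.exp hsub.lim, ?_⟩
  have h2 := (Real.continuous_exp.tendsto _).comp h
  refine h2.congr fun n => ?_
  have h1 : (0 : ℝ) < (ball S n).ncard := by exact_mod_cast ncard_pos S n
  rw [Function.comp_apply, Real.rpow_def_of_pos h1]
  congr 1
  ring

variable {S}

lemma IsGrowthRate.eventually_le {r y : ℝ} (h : IsGrowthRate S r) (hy : r < y) :
    ∀ᶠ n : ℕ in atTop, ((ball S n).ncard : ℝ) ≤ y ^ n := by
  filter_upwards [h.eventually_lt_const hy, eventually_gt_atTop 0] with n hn h0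
  have h1 : (0 : ℝ) < (ball S n).ncard := by exact_mod_cast ncard_pos S n
  have h2 : (n : ℝ) ≠ 0 := by exact_mod_cast h0.ne'
  have h3 : ((ball S n).ncard : ℝ) = (((ball S n).ncard : ℝ) ^ (1 / (n : ℝ))) ^ n := by
    rw [← Real.rpow_natCast, ← Real.rpow_mul h1.le, one_div, inv_mul_cancel₀ h2, Real.rpow_one]
  rw [h3]
  exact pow_le_pow_left₀ (Real.rpow_nonneg h1.le _) hn.le n

lemma IsGrowthRate.eventually_ge {r y : ℝ} (h : IsGrowthRate S r) (hy0 : 0 ≤ y) (hy : y < r) :
    ∀ᶠ n : ℕ in atTop, y ^ n ≤ ((ball S n).ncard : ℝ) := by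
  filter_upwards [h.eventually_const_lt hy, eventually_gt_atTop 0] with n hn h0
  have h1 : (0 : ℝ) < (ball S n).ncard := by exact_mod_cast ncard_pos S n
  have h2 : (n : ℝ) ≠ 0 := by exact_mod_cast h0.ne'
  have h3 : ((ball S n).ncard : ℝ) = (((ball S n).ncard : ℝ) ^ (1 / (n : ℝ))) ^ n := by
    rw [← Real.rpow_natCast, ← Real.rpow_mul h1.le, one_div, inv_mul_cancel₀ h2, Real.rpow_one]
  rw [h3]
  exact pow_le_pow_left₀ hy0 hn.le n

lemma IsGrowthRate.unique {r r' : ℝ} (h : IsGrowthRate S r) (h' : IsGrowthRate S r') : r = r' :=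
  tendsto_nhds_unique h h'

/-- an upper bound for the growth rate -/
lemma IsGrowthRate.le_of_bound {r y C : ℝ} (h : IsGrowthRate S r) (hy : 0 < y)
    (hb : ∀ n : ℕ, ((ball S n).ncard : ℝ) ≤ C * ((n : ℝ) + 1) ^ 3 * y ^ n) : r ≤ y := by
  by_contra hlt
  push Not at hlt
  obtain ⟨z, hz1, hz2⟩ := exists_between hlt
  have hz0 : 0 < z := hy.trans hz1
  have h1 := h.eventually_ge hz0.le hz2
  have hq : 1 < z / y := (one_lt_div hy).2 hz1
  have h2 := tendsto_pow_const_div_const_pow_of_one_lt 3 hq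
  -- (z/y)^n ≤ C (n+1)^3 ≤ 8 C n^3
  have hC : 0 < C := by
    have := hb 0
    have h3 : (0 : ℝ) < (ball S 0).ncard := by exact_mod_cast ncard_pos S 0
    have h4 : ((ball S 0).ncard : ℝ) ≤ C := by simpa using this
    linarith
  have h3 : ∀ᶠ n : ℕ in atTop, (n : ℝ) ^ 3 / (z / y) ^ n < 1 / (8 * C) :=
    h2.eventually_lt_const (by positivity)
  obtain ⟨n, hn1, hn2, hn3⟩ := (h1.and (h3.and (eventually_gt_atTop 0))).exists
  have h4 := hn1.trans (hb n)
  have hy' : 0 < y ^ n := by positivity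
  have h5 : (z / y) ^ n ≤ C * ((n : ℝ) + 1) ^ 3 := by
    rw [div_pow, div_le_iff₀ hy']
    exact h4
  have h6 : ((n : ℝ) + 1) ^ 3 ≤ (2 * n) ^ 3 := by
    have : (1 : ℝ) ≤ n := by exact_mod_cast hn3
    exact pow_le_pow_left₀ (by positivity) (by linarith) 3
  have h7 : (0 : ℝ) < (z / y) ^ n := by positivity
  rw [div_lt_div_iff₀ h7 (by positivity)] at hn2
  nlinarith

end Basic

section Transport

variable {G H : Type*} [Group G] [Group H] (e : G ≃* H) (S : Finset G)

lemma ball_map (n : ℕ) : ball (S.map e.toEquiv.toEmbedding) n = e '' ball S n := by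
  ext h
  constructor
  · rintro ⟨w, hw, hS, rfl⟩
    refine ⟨e.symm w.prod, ⟨w.map e.symm, by simpa using hw, ?_, ?_⟩, by simp⟩
    · intro x hx
      obtain ⟨y, hy, rfl⟩ := List.mem_map.1 hx
      rcases hS y hy with h | h
      · left
        obtain ⟨z, hz, rfl⟩ := Finset.mem_map.1 h
        simpa using hz
      · right
        obtain ⟨z, hz, hz'⟩ := Finset.mem_map.1 h
        have : e.symm y⁻¹ = z := by rw [← hz']; simp
        rw [map_inv] at this
        rw [this]; exact hz
    · rw [← map_list_prod]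
  · rintro ⟨g, ⟨w, hw, hS, rfl⟩, rfl⟩
    refine ⟨w.map e, by simpa using hw, ?_, by rw [map_list_prod]⟩
    intro x hx
    obtain ⟨y, hy, rfl⟩ := List.mem_map.1 hx
    rcases hS y hy with h | h
    · left; exact Finset.mem_map.2 ⟨y, h, rfl⟩
    · right; exact Finset.mem_map.2 ⟨y⁻¹, h, by simp⟩

lemma isGrowthRate_map {r : ℝ} (h : IsGrowthRate S r) :
    IsGrowthRate (S.map e.toEquiv.toEmbedding) r := by
  unfold IsGrowthRate at h ⊢
  refine h.congr fun n => ?_
  rw [ball_map, Set.ncard_image_of_injective _ e.injective]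

lemma closure_map (h : Subgroup.closure (S : Set G) = ⊤) :
    Subgroup.closure ((S.map e.toEquiv.toEmbedding : Finset H) : Set H) = ⊤ := by
  have h1 : ((S.map e.toEquiv.toEmbedding : Finset H) : Set H) = e.toMonoidHom '' (S : Set G) := by
    simp
  rw [h1, ← MonoidHom.map_closure, h]
  exact Subgroup.map_top_of_surjective _ e.surjective

end Transport

end Pool.Agent.H38.GR
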