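import Pool.Agent.H38.GR.Cyc

/-! Lower bound for the partition function. -/

namespace Pool.Agent.H38.GR

open Finset

set_option linter.unusedSectionVars false
set_option linter.unusedVariables false

variable (R l K : ℕ) [NeZero R]

/-- the site number `t` of the block number `i` -/
def site (p : Fin K × Fin (l + 1)) : ZMod R := ((finProdFinEquiv p : Fin (K * (l + 1))).val : ZMod R)

lemma site_val (hR : R = K * (l + 1)) (p : Fin K × Fin (l + 1)) :
    (site R l K p).val = p.2.val + (l + 1) * p.1.val := by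
  unfold site
  rw [ZMod.val_natCast_of_lt]
  · simp [finProdFinEquiv]
  · rw [hR]; exact Fin.is_lt _

lemma site_inj (hR : R = K * (l + 1)) : Function.Injective (site R l K) := by
  intro p q h
  have h1 := congrArg ZMod.val h
  unfold site at h1
  rw [ZMod.val_natCast_of_lt, ZMod.val_natCast_of_lt] at h1
  · exact finProdFinEquiv.injective (Fin.ext h1)
  · rw [hR]; exact Fin.is_lt _
  · rw [hR]; exact Fin.is_lt _

lemma site_bij (hR : R = K * (l + 1)) : Function.Bijective (site R l K) := by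
  rw [Fintype.bijective_iff_injective_and_card]
  refine ⟨site_inj R l K hR, ?_⟩
  rw [Fintype.card_prod, Fintype.card_fin, Fintype.card_fin, ZMod.card, hR]

/-- a crossing pattern of a block which makes a cycle -/
def Pat (d : Fin (l + 1) → ZMod 2) : Prop :=
  d 0 = 1 ∧ d (Fin.last l) = 1 ∧ ∀ t : Fin (l + 1), t ≠ 0 → t ≠ Fin.last l → d t = 0

instance (d : Fin (l + 1) → ZMod 2) : Decidable (Pat l d) := by unfold Pat; infer_instance

/-- the crossings of the block `i` -/
def blk (c : ZMod R → ZMod 2) (i : Fin K) : Fin (l + 1) → ZMod 2 := fun t => c (site R l K (i, t))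

/-- the cycle of the block `i` -/
def cyc (i : Fin K) : Finset (Sp R) :=
  Finset.univ.image fun t : Fin (l + 1) => (site R l K (i, t), decide (t ≠ Fin.last l))

lemma cyc_card (hR : R = K * (l + 1)) (i : Fin K) : (cyc R l K i).card = l + 1 := by
  unfold cyc
  rw [Finset.card_image_of_injective, Finset.card_univ, Fintype.card_fin]
  intro t t' h
  have h1 := site_inj R l K hR (congrArg Prod.fst h)
  exact congrArg Prod.snd h1

lemma cyc_disj (hR : R = K * (l + 1)) (i j : Fin K) (hij : i ≠ j) :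
    Disjoint (cyc R l K i) (cyc R l K j) := by
  rw [Finset.disjoint_left]
  intro u hu hu'
  simp only [cyc, Finset.mem_image, Finset.mem_univ, true_and] at hu hu'
  obtain ⟨t, rfl⟩ := hu
  obtain ⟨t', h⟩ := hu'
  have h1 := site_inj R l K hR (congrArg Prod.fst h)
  exact hij (congrArg Prod.fst h1).symm

lemma site_succ (hR : R = K * (l + 1)) (i : Fin K) (t : Fin (l + 1)) (ht : t.val < l) :
    site R l K (i, t) + 1 = site R l K (i, ⟨t.val + 1, by omega⟩) := by
  unfold site
  simp only [finProdFinEquiv, Equiv.coe_fn_mk]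
  push_cast
  ring

lemma site_last (hR : R = K * (l + 1)) (i : Fin K) :
    site R l K (i, Fin.last l) - (l : ZMod R) = site R l K (i, 0) := by
  unfold site
  simp only [finProdFinEquiv, Equiv.coe_fn_mk, Fin.val_last, Fin.val_zero]
  push_cast
  ring

lemma cyc_map (hR : R = K * (l + 1)) (hl : 0 < l) (c : ZMod R → ZMod 2) (i : Fin K)
    (h : Pat l (blk R l K c i)) : ∀ u ∈ cyc R l K i, nxt R l c u ∈ cyc R l K i := by
  intro u hu
  obtain ⟨h0, h1, h2⟩ := h
  simp only [blk] at h0 h1 h2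
  simp only [cyc, Finset.mem_image, Finset.mem_univ, true_and] at hu ⊢
  obtain ⟨t, rfl⟩ := hu
  by_cases ht : t = Fin.last l
  · subst ht
    refine ⟨0, ?_⟩
    simp only [ne_eq, not_true_eq_false, decide_false]
    rw [nxt_false, site_last R l K hR, if_pos h0]
    have : (0 : Fin (l + 1)) ≠ Fin.last l := by
      intro h3
      have := congrArg Fin.val h3
      simp at this
      omega
    simp [this]
  · have ht' : t.val < l := by
      have := t.isLt
      have h3 : t.val ≠ l := fun h4 => ht (Fin.ext (by simp [h4]))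
      omega
    refine ⟨⟨t.val + 1, by omega⟩, ?_⟩
    simp only [ne_eq, ht, not_false_eq_true, decide_true]
    rw [nxt_true, site_succ R l K hR i t ht']
    refine Prod.ext rfl ?_
    simp only
    by_cases h4 : t.val + 1 = l
    · have h5 : (⟨t.val + 1, by omega⟩ : Fin (l + 1)) = Fin.last l := Fin.ext (by simp [h4])
      rw [h5, if_pos h1]
      simp
    · have h5 : (⟨t.val + 1, by omega⟩ : Fin (l + 1)) ≠ Fin.last l := by
        intro h6
        exact h4 (by simpa using congrArg Fin.val h6)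
      have h6 : (⟨t.val + 1, by omega⟩ : Fin (l + 1)) ≠ 0 := by
        intro h7
        simpa using congrArg Fin.val h7
      rw [h2 _ h6 h5, if_neg zero_ne_one2]
      simp [h5]

lemma cyc_image (hR : R = K * (l + 1)) (hl : 0 < l) (c : ZMod R → ZMod 2) (i : Fin K)
    (h : Pat l (blk R l K c i)) : (cyc R l K i).image (nxt R l c) = cyc R l K i := by
  apply Finset.eq_of_subset_of_card_le
  · intro v hv
    obtain ⟨u, hu, rfl⟩ := Finset.mem_image.1 hv
    exact cyc_map R l K hR hl c i h u hu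
  · rw [Finset.card_image_of_injective _ (nxt R l c).injective]

lemma cyc_prod (hR : R = K * (l + 1)) (hl : 0 < l) (c : ZMod R → ZMod 2) (i : Fin K)
    (h : Pat l (blk R l K c i)) (s : Sp R → ZMod 2) :
    ∏ u ∈ cyc R l K i, ech (nxt R l c) u s = 1 := by
  unfold ech
  rw [Finset.prod_mul_distrib]
  have : ∏ u ∈ cyc R l K i, sg (s (nxt R l c u)) = ∏ u ∈ cyc R l K i, sg (s u) := by
    conv_rhs => rw [← cyc_image R l K hR hl c i h]
    rw [Finset.prod_image]
    intro a _ b _ hab
    exact (nxt R l c).injective hab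
  rw [this, ← Finset.prod_mul_distrib]
  exact Finset.prod_eq_one fun u _ => sg_sq _

lemma sum_lower (hR : R = K * (l + 1)) (hl : 0 < l) {κ : ℝ} (h0 : 0 ≤ κ) (c : ZMod R → ZMod 2) :
    (∏ i : Fin K, (if Pat l (blk R l K c i) then 1 + κ ^ (l + 1) else 1)) * 2 ^ (2 * R) ≤
    ∑ s : Sp R → ZMod 2, ∏ u, (1 + κ * ech (nxt R l c) u s) := by
  classical
  set B : Finset (Fin K) := Finset.univ.filter fun i => Pat l (blk R l K c i) with hB
  have hmem : ∀ i ∈ B, Pat l (blk R l K c i) := fun i hi => (Finset.mem_filter.1 hi).2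
  have h1 := PosT.cycles (Ω := Sp R → ZMod 2) h0 (ech (nxt R l c)) (fun u => ech_isChar _ u)
    (cyc R l K) (l + 1) (Nat.succ_pos l) B (fun i _ => cyc_card R l K hR i)
    (fun i hi s => cyc_prod R l K hR hl c i (hmem i hi) s)
    (fun i _ j _ hij => cyc_disj R l K hR i j hij) PosT.one
  have h2 : (fun s : Sp R → ZMod 2 =>
      (1:ℝ) * ∏ u ∈ B.biUnion (cyc R l K), (1 + κ * ech (nxt R l c) u s)) =
      fun s => ∏ u ∈ B.biUnion (cyc R l K), (1 + κ * ech (nxt R l c) u s) := by
    funext s; ring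
  have hP : PosT (fun s : Sp R → ZMod 2 =>
      (1:ℝ) * ∏ u ∈ B.biUnion (cyc R l K), (1 + κ * ech (nxt R l c) u s)) :=
    PosT.one.mul_prod h0 _ (fun u => ech_isChar _ u) _
  have h3 := hP.sum_le_mul_prod h0 (ech (nxt R l c)) (fun u => ech_isChar _ u)
    (B.biUnion (cyc R l K))ᶜ
  have h4 : ∀ s : Sp R → ZMod 2, (1 : ℝ) * (∏ u ∈ B.biUnion (cyc R l K), (1 + κ * ech (nxt R l c) u s)) *
      ∏ u ∈ (B.biUnion (cyc R l K))ᶜ, (1 + κ * ech (nxt R l c) u s) =
      ∏ u, (1 + κ * ech (nxt R l c) u s) := by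
    intro s
    rw [one_mul, Finset.prod_mul_prod_compl]
  simp_rw [h4] at h3
  refine le_trans ?_ (h1.trans h3)
  rw [Finset.prod_ite, Finset.prod_const, Finset.prod_const_one, mul_one]
  refine le_of_eq ?_
  congr 1
  simp only [Finset.sum_const, Finset.card_univ, nsmul_eq_mul, mul_one, Fintype.card_fun,
    ZMod.card, card_Sp]
  push_cast
  rfl

lemma exists_pat (hl : 0 < l) : ∃ d : Fin (l + 1) → ZMod 2, Pat l d := by
  refine ⟨fun t => if t = 0 ∨ t = Fin.last l then 1 else 0, by simp, by simp, ?_⟩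
  intro t h1 h2
  simp [h1, h2]

lemma sum_blocks (hR : R = K * (l + 1)) (g : (Fin (l + 1) → ZMod 2) → ℝ) :
    ∑ c : ZMod R → ZMod 2, ∏ i : Fin K, g (blk R l K c i) =
      (∑ d : Fin (l + 1) → ZMod 2, g d) ^ K := by
  have h1 := Finset.sum_prod_piFinset (ι := Fin K)
    (Finset.univ : Finset (Fin (l + 1) → ZMod 2)) (fun _ d => g d)
  rw [Fintype.piFinset_univ] at h1
  rw [Finset.prod_const, Finset.card_univ, Fintype.card_fin] at h1
  rw [← h1]
  let e1 : (ZMod R → ZMod 2) ≃ (Fin K × Fin (l + 1) → ZMod 2) :=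
    Equiv.arrowCongr (Equiv.ofBijective _ (site_bij R l K hR)).symm (Equiv.refl _)
  let e2 : (Fin K × Fin (l + 1) → ZMod 2) ≃ (Fin K → Fin (l + 1) → ZMod 2) :=
    Equiv.curry _ _ _
  rw [← Equiv.sum_comp (e1.trans e2)]
  refine Finset.sum_congr rfl fun c _ => ?_
  refine Finset.prod_congr rfl fun i _ => ?_
  congr 1

lemma ZZ_lower (hR : R = K * (l + 1)) (hl : 0 < l) {ρ : ℝ} (h0 : 0 < ρ) (h1 : ρ ≤ 1) :
    (8 * (1 + ρ) ^ 2) ^ R * (1 + ((1 - ρ) / (1 + ρ) / 2) ^ (l + 1)) ^ K ≤
      ZZ R l (2 * ρ ^ 2 - 1) := by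
  rw [ZZ_eq' R l h0]
  set κ := (1 - ρ) / (1 + ρ) with hκ
  have hκ0 : 0 ≤ κ := div_nonneg (by linarith) (by linarith)
  have h2 : (2 : ℝ) ^ (2 * R) * (2 ^ (l + 1) + κ ^ (l + 1)) ^ K ≤
      ∑ c : ZMod R → ZMod 2, ∑ s : Sp R → ZMod 2,
      ∏ u, (1 + κ * ech (nxt R l c) u s) := by
    refine le_trans ?_ (Finset.sum_le_sum fun c _ => sum_lower R l K hR hl hκ0 c)
    rw [← Finset.sum_mul, sum_blocks R l K hR (fun d => if Pat l d then 1 + κ ^ (l + 1) else 1),
      mul_comm]
    refine mul_le_mul_of_nonneg_right ?_ (by positivity)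
    refine pow_le_pow_left₀ (by positivity) ?_ _
    obtain ⟨d₀, hd₀⟩ := exists_pat l hl
    have h3 : ∑ d : Fin (l + 1) → ZMod 2, (1 + if d = d₀ then κ ^ (l + 1) else 0) =
        2 ^ (l + 1) + κ ^ (l + 1) := by
      rw [Finset.sum_add_distrib, Finset.sum_ite_eq' Finset.univ d₀]
      simp [ZMod.card]
    rw [← h3]
    refine Finset.sum_le_sum fun d _ => ?_
    by_cases hd : d = d₀
    · subst hd
      rw [if_pos rfl, if_pos hd₀]
    · rw [if_neg hd, add_zero]
      split_ifs
      · have := pow_nonneg hκ0 (l + 1)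
        linarith
      · exact le_refl _
  refine le_trans (le_of_eq ?_) (mul_le_mul_of_nonneg_left h2 (by positivity))
  have h4 : (2:ℝ) ^ (l + 1) + κ ^ (l + 1) = 2 ^ (l + 1) * (1 + (κ / 2) ^ (l + 1)) := by
    clear_value κ
    rw [div_pow]; field_simp
  rw [h4, mul_pow (2 ^ (l + 1)), ← pow_mul, mul_pow 8, ← pow_mul]
  have h5 : (8 : ℝ) ^ R = 2 ^ (2 * R) * 2 ^ ((l + 1) * K) := by
    rw [show (l + 1) * K = R by rw [hR]; ring, ← pow_add, show 2 * R + R = 3 * R by ring, pow_mul]
    norm_num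
  rw [h5]; ring

end Pool.Agent.H38.GR
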