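import Pool.Agent.H38.GR.Growth
import Pool.Agent.H38.GR.Low

/-! The wreath product and its words. -/

namespace Pool.Agent.H38.GR

open Finset

set_option linter.unusedSectionVars false
set_option linter.unusedVariables false

/-- lamp states of one site: three marks and two bits -/
abbrev V := Fin 5 → ZMod 2

/-- the wreath product of `V` and the integers -/
@[ext] structure Lamp where
  f : ℤ →₀ V
  p : ℤ

/-- translation -/
noncomputable def shift (p : ℤ) (f : ℤ →₀ V) : ℤ →₀ V :=
  Finsupp.equivMapDomain (Equiv.addRight p) f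

@[simp] lemma shift_apply (p : ℤ) (f : ℤ →₀ V) (j : ℤ) : shift p f j = f (j - p) := by
  simp [shift, sub_eq_add_neg]

noncomputable instance : Mul Lamp := ⟨fun g h => ⟨g.f + shift g.p h.f, g.p + h.p⟩⟩
noncomputable instance : One Lamp := ⟨⟨0, 0⟩⟩
noncomputable instance : Inv Lamp := ⟨fun g => ⟨-shift (-g.p) g.f, -g.p⟩⟩

lemma mul_f (g h : Lamp) : (g * h).f = g.f + shift g.p h.f := rfl
@[simp] lemma mul_p (g h : Lamp) : (g * h).p = g.p + h.p := rfl
@[simp] lemma one_f : (1 : Lamp).f = 0 := rfl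
@[simp] lemma one_p : (1 : Lamp).p = 0 := rfl
lemma inv_f (g : Lamp) : (g⁻¹).f = -shift (-g.p) g.f := rfl
@[simp] lemma inv_p (g : Lamp) : (g⁻¹).p = -g.p := rfl

@[simp] lemma mul_f_apply (g h : Lamp) (j : ℤ) : (g * h).f j = g.f j + h.f (j - g.p) := by
  rw [mul_f, Finsupp.add_apply, shift_apply]

@[simp] lemma inv_f_apply (g : Lamp) (j : ℤ) : (g⁻¹).f j = -g.f (j + g.p) := by
  rw [inv_f, Finsupp.neg_apply, shift_apply, sub_neg_eq_add]

noncomputable instance : Group Lamp :=
  Group.ofLeftAxioms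
    (by
      intro a b c
      refine Lamp.ext (Finsupp.ext fun j => ?_) (by simp [add_assoc])
      simp only [mul_f_apply, mul_p]
      rw [add_assoc, sub_sub])
    (by
      intro a
      refine Lamp.ext (Finsupp.ext fun j => ?_) (by simp)
      simp)
    (by
      intro a
      refine Lamp.ext (Finsupp.ext fun j => ?_) (by simp)
      simp)

lemma v_add_self (v : V) : v + v = 0 := by
  funext i
  have : ∀ a : ZMod 2, a + a = 0 := by decide
  exact this _

lemma v_neg (v : V) : -v = v := by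
  rw [neg_eq_iff_add_eq_zero]; exact v_add_self v

/-- content of a letter at its own site -/
def tailC (m : V) : V := ![m 0, m 1, m 2, (1 + m 0) * m 3, (1 + m 1) * m 4]
/-- contribution of a letter to the bit `y` of the preceding site -/
def hC (m : V) : ZMod 2 := (1 + m 2) * m 0 * m 3 + m 2 * m 1 * m 4
/-- contribution of a letter to the bit `z` of the site at distance `l` -/
def kC (m : V) : ZMod 2 := m 2 * m 0 * m 3 + (1 + m 2) * m 1 * m 4

/-- unit vector of the bit `y` -/
def ey : V := ![0, 0, 0, 1, 0]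
/-- unit vector of the bit `z` -/
def ez : V := ![0, 0, 0, 0, 1]

/-- content of a letter -/
noncomputable def gl (l : ℕ) (m : V) : ℤ →₀ V :=
  Finsupp.single 0 (tailC m) + Finsupp.single (-1) (hC m • ey) + Finsupp.single (l : ℤ) (kC m • ez)

/-- travelling letters -/
noncomputable def T (l : ℕ) (m : V) : Lamp := ⟨gl l m, 1⟩
/-- a lamp -/
noncomputable def Ly : Lamp := ⟨Finsupp.single 0 ey, 0⟩
/-- a lamp -/
noncomputable def Lz : Lamp := ⟨Finsupp.single 0 ez, 0⟩

open Classical in
/-- the generating set number `l` -/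
noncomputable def gen (l : ℕ) : Finset Lamp := Finset.univ.image (T l) ∪ {Ly, Lz}

lemma mem_gen (l : ℕ) (x : Lamp) : x ∈ gen l ↔ (∃ m, x = T l m) ∨ x = Ly ∨ x = Lz := by
  classical
  unfold gen
  rw [Finset.mem_union, Finset.mem_image]
  simp only [Finset.mem_univ, true_and, Finset.mem_insert, Finset.mem_singleton]
  constructor
  · rintro (⟨m, rfl⟩ | h)
    · exact Or.inl ⟨m, rfl⟩
    · exact Or.inr h
  · rintro (⟨m, rfl⟩ | h)
    · exact Or.inl ⟨m, rfl⟩
    · exact Or.inr h

lemma card_gen (l : ℕ) : (gen l).card ≤ 34 := by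
  classical
  unfold gen
  refine (Finset.card_union_le _ _).trans ?_
  have h1 : (Finset.univ.image (T l)).card ≤ 32 := by
    refine Finset.card_image_le.trans ?_
    rw [Finset.card_univ, Fintype.card_fun, ZMod.card, Fintype.card_fin]
    norm_num
  have h2 : ({Ly, Lz} : Finset Lamp).card ≤ 2 := Finset.card_le_two
  omega

lemma gl_apply (l : ℕ) (m : V) (j : ℤ) : gl l m j =
    (if j = 0 then tailC m else 0) + (if j = -1 then hC m • ey else 0) +
      (if j = l then kC m • ez else 0) := by
  unfold gl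
  rw [Finsupp.add_apply, Finsupp.add_apply, Finsupp.single_apply, Finsupp.single_apply,
    Finsupp.single_apply]
  simp only [eq_comm]

/-- total of a finitely supported function -/
noncomputable def tot (N : ℤ →₀ ℕ) : ℕ := N.sum fun _ n => n

lemma tot_add_single (N : ℤ →₀ ℕ) (j : ℤ) : tot (N + Finsupp.single j 1) = tot N + 1 := by
  unfold tot
  rw [Finsupp.sum_add_index' (fun _ => rfl) (fun _ _ _ => rfl), Finsupp.sum_single_index rfl]

@[simp] lemma tot_zero : tot 0 = 0 := by simp [tot]

lemma sum_le_tot (N : ℤ →₀ ℕ) (A : Finset ℤ) : ∑ j ∈ A, N j ≤ tot N := by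
  classical
  unfold tot Finsupp.sum
  calc ∑ j ∈ A, N j = ∑ j ∈ A.filter (fun j => N j ≠ 0), N j := by
        rw [Finset.sum_filter_ne_zero]
    _ ≤ ∑ j ∈ N.support, N j := by
        refine Finset.sum_le_sum_of_subset ?_
        intro j hj
        rw [Finset.mem_filter] at hj
        exact Finsupp.mem_support_iff.2 hj.2

/-- the record of a word -/
structure Track (l n : ℕ) (g : Lamp) (lo hi : ℤ) (N LA LB : ℤ →₀ ℕ) (M : ℤ → V)
    (h k : ℤ → ZMod 2) : Prop where
  lo0 : lo ≤ 0
  hi0 : 0 ≤ hi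
  loP : lo ≤ g.p
  Phi : g.p ≤ hi
  Nout : ∀ j, (j < lo ∨ hi ≤ j) → N j = 0
  Nin : ∀ j, lo ≤ j → j < hi → 1 ≤ N j
  par : ∀ j, N j % 2 = if (0 ≤ j ∧ j < g.p) ∨ (g.p ≤ j ∧ j < 0) then 1 else 0
  zero : ∀ j, N j = 0 → M j = 0 ∧ h j = 0 ∧ k j = 0
  one : ∀ j, N j = 1 → ∃ m, M j = tailC m ∧ h j = hC m ∧ k j = kC m
  Lout : ∀ j, (j < lo ∨ hi < j) → LA j = 0 ∧ LB j = 0
  len : tot N + tot LA + tot LB = n
  val : ∀ j, g.f j = M j + (h (j + 1) + (LA j : ZMod 2)) • ey + (k (j - l) + (LB j : ZMod 2)) • ez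

/-- there is a record -/
def Tr (l n : ℕ) (g : Lamp) : Prop := ∃ lo hi N LA LB M h k, Track l n g lo hi N LA LB M h k

lemma Tr.one (l : ℕ) : Tr l 0 1 := by
  refine ⟨0, 0, 0, 0, 0, 0, 0, 0, ?_⟩
  constructor <;> simp

lemma add_event {l : ℕ} {M : ℤ → V} {h k : ℤ → ZMod 2} (N : ℤ →₀ ℕ) (m : V) (i : ℤ)
    (zero : ∀ j, N j = 0 → M j = 0 ∧ h j = 0 ∧ k j = 0)
    (one : ∀ j, N j = 1 → ∃ m, M j = tailC m ∧ h j = hC m ∧ k j = kC m) :
    (∀ j, (N + Finsupp.single i 1 : ℤ →₀ ℕ) j = 0 → (M j + if j = i then tailC m else 0) = 0 ∧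
      (h j + if j = i then hC m else 0) = 0 ∧ (k j + if j = i then kC m else 0) = 0) ∧
    (∀ j, (N + Finsupp.single i 1 : ℤ →₀ ℕ) j = 1 → ∃ m', (M j + if j = i then tailC m else 0) = tailC m' ∧
      (h j + if j = i then hC m else 0) = hC m' ∧ (k j + if j = i then kC m else 0) = kC m') := by
  constructor
  · intro j hj
    rw [Finsupp.add_apply, Finsupp.single_apply] at hj
    by_cases hij : i = j
    · rw [if_pos hij] at hj; omega
    · rw [if_neg hij] at hj
      have hji : ¬ j = i := fun h => hij h.symm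
      simp only [hji, if_false, add_zero]
      exact zero j (by omega)
  · intro j hj
    rw [Finsupp.add_apply, Finsupp.single_apply] at hj
    by_cases hij : i = j
    · rw [if_pos hij] at hj
      subst hij
      obtain ⟨h1, h2, h3⟩ := zero i (by omega)
      refine ⟨m, ?_, ?_, ?_⟩ <;> simp [h1, h2, h3]
    · rw [if_neg hij] at hj
      have hji : ¬ j = i := fun h => hij h.symm
      simp only [hji, if_false, add_zero]
      exact one j (by omega)

lemma val_event (l : ℕ) (m : V) (i j : ℤ) (F : V) (A : ZMod 2) (B : ZMod 2)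
    (M : ℤ → V) (h k : ℤ → ZMod 2)
    (hF : F = M j + (h (j + 1) + A) • ey + (k (j - l) + B) • ez) :
    F + gl l m (j - i) = (M j + if j = i then tailC m else 0) +
      ((h (j + 1) + if j + 1 = i then hC m else 0) + A) • ey +
      ((k (j - l) + if j - l = i then kC m else 0) + B) • ez := by
  rw [hF, gl_apply]
  have e1 : (j - i = 0) ↔ (j = i) := by omega
  have e2 : (j - i = -1) ↔ (j + 1 = i) := by omega
  have e3 : (j - i = l) ↔ (j - l = i) := by omega
  simp only [e1, e2, e3]
  split_ifs <;> simp only [add_smul, add_zero, zero_add, zero_smul] <;> abel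

lemma Tr.right {l n : ℕ} {g : Lamp} (ht : Tr l n g) (m : V) : Tr l (n + 1) (g * T l m) := by
  obtain ⟨lo, hi, N, LA, LB, M, h, k, t⟩ := ht
  have hp : (g * T l m).p = g.p + 1 := rfl
  obtain ⟨a1, a2⟩ := add_event (l := l) N m g.p t.zero t.one
  refine ⟨lo, max hi (g.p + 1), N + Finsupp.single g.p 1, LA, LB,
    fun j => M j + if j = g.p then tailC m else 0,
    fun j => h j + if j = g.p then hC m else 0,
    fun j => k j + if j = g.p then kC m else 0, ?_⟩
  have l0 := t.lo0
  have h0 := t.hi0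
  have lp := t.loP
  have ph := t.Phi
  constructor
  · exact l0
  · exact le_max_of_le_left h0
  · rw [hp]; omega
  · rw [hp]; exact le_max_right _ _
  · intro j hj
    have h1 : ¬ g.p = j := by
      rintro rfl
      rcases hj with hj | hj
      · omega
      · have := (le_max_right hi (g.p + 1)).trans hj; omega
    rw [Finsupp.add_apply, Finsupp.single_apply, if_neg h1, add_zero]
    refine t.Nout j ?_
    rcases hj with hj | hj
    · exact Or.inl hj
    · exact Or.inr ((le_max_left _ _).trans hj)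
  · intro j hj1 hj2
    rw [Finsupp.add_apply, Finsupp.single_apply]
    by_cases h1 : j < hi
    · have := t.Nin j hj1 h1; omega
    · have h2 : g.p = j := by
        rcases lt_max_iff.1 hj2 with h2 | h2 <;> omega
      rw [if_pos h2]; omega
  · intro j
    rw [Finsupp.add_apply, Finsupp.single_apply, hp]
    have hpj := t.par j
    by_cases h1 : g.p = j
    · subst h1
      rw [if_pos rfl]
      by_cases h2 : 0 ≤ g.p
      · rw [if_neg (by omega)] at hpj
        rw [if_pos (by omega)]; omega
      · rw [if_pos (by omega)] at hpj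
        rw [if_neg (by omega)]; omega
    · rw [if_neg h1, add_zero, hpj]
      congr 1
      apply propext
      constructor <;> intro h2 <;> omega
  · exact a1
  · exact a2
  · intro j hj
    refine t.Lout j ?_
    rcases hj with hj | hj
    · exact Or.inl hj
    · exact Or.inr (lt_of_le_of_lt (le_max_left _ _) hj)
  · rw [tot_add_single, ← t.len]; ring
  · intro j
    rw [mul_f_apply]
    exact val_event l m g.p j _ _ _ M h k (t.val j)

lemma Tr.left {l n : ℕ} {g : Lamp} (ht : Tr l n g) (m : V) : Tr l (n + 1) (g * (T l m)⁻¹) := by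
  obtain ⟨lo, hi, N, LA, LB, M, h, k, t⟩ := ht
  have hp : (g * (T l m)⁻¹).p = g.p - 1 := rfl
  obtain ⟨a1, a2⟩ := add_event (l := l) N m (g.p - 1) t.zero t.one
  refine ⟨min lo (g.p - 1), hi, N + Finsupp.single (g.p - 1) 1, LA, LB,
    fun j => M j + if j = g.p - 1 then tailC m else 0,
    fun j => h j + if j = g.p - 1 then hC m else 0,
    fun j => k j + if j = g.p - 1 then kC m else 0, ?_⟩
  have l0 := t.lo0
  have h0 := t.hi0
  have lp := t.loP
  have ph := t.Phi
  constructor
  · exact min_le_of_left_le l0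
  · exact h0
  · rw [hp]; exact min_le_right _ _
  · rw [hp]; omega
  · intro j hj
    have h1 : ¬ g.p - 1 = j := by
      rintro rfl
      rcases hj with hj | hj
      · have := lt_of_lt_of_le hj (min_le_right lo (g.p - 1)); omega
      · omega
    rw [Finsupp.add_apply, Finsupp.single_apply, if_neg h1, add_zero]
    refine t.Nout j ?_
    rcases hj with hj | hj
    · exact Or.inl (lt_of_lt_of_le hj (min_le_left _ _))
    · exact Or.inr hj
  · intro j hj1 hj2
    rw [Finsupp.add_apply, Finsupp.single_apply]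
    by_cases h1 : lo ≤ j
    · have := t.Nin j h1 hj2; omega
    · have h2 : g.p - 1 = j := by
        rcases min_le_iff.1 hj1 with h2 | h2 <;> omega
      rw [if_pos h2]; omega
  · intro j
    rw [Finsupp.add_apply, Finsupp.single_apply, hp]
    have hpj := t.par j
    by_cases h1 : g.p - 1 = j
    · subst h1
      rw [if_pos rfl]
      by_cases h2 : 1 ≤ g.p
      · rw [if_pos (by omega)] at hpj
        rw [if_neg (by omega)]; omega
      · rw [if_neg (by omega)] at hpj
        rw [if_pos (by omega)]; omega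
    · rw [if_neg h1, add_zero, hpj]
      congr 1
      apply propext
      constructor <;> intro h2 <;> omega
  · exact a1
  · exact a2
  · intro j hj
    refine t.Lout j ?_
    rcases hj with hj | hj
    · exact Or.inl (lt_of_lt_of_le hj (min_le_left _ _))
    · exact Or.inr hj
  · rw [tot_add_single, ← t.len]; ring
  · intro j
    rw [mul_f_apply, inv_f_apply, v_neg]
    have e : j - g.p + (T l m).p = j - (g.p - 1) := by
      show j - g.p + 1 = _
      ring
    rw [e]
    exact val_event l m (g.p - 1) j _ _ _ M h k (t.val j)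

lemma Tr.lampY {l n : ℕ} {g : Lamp} (ht : Tr l n g) : Tr l (n + 1) (g * Ly) := by
  obtain ⟨lo, hi, N, LA, LB, M, h, k, t⟩ := ht
  have hp : (g * Ly).p = g.p := by show g.p + 0 = _; ring
  refine ⟨lo, hi, N, LA + Finsupp.single g.p 1, LB, M, h, k, t.lo0, t.hi0, ?_, ?_, t.Nout, t.Nin, ?_,
    t.zero, t.one, ?_, ?_, ?_⟩
  · rw [hp]; exact t.loP
  · rw [hp]; exact t.Phi
  · intro j; rw [hp]; exact t.par j
  · intro j hj
    have h1 : ¬ g.p = j := by
      have := t.loP
      have := t.Phi
      omega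
    rw [Finsupp.add_apply, Finsupp.single_apply, if_neg h1, add_zero]
    exact t.Lout j hj
  · rw [tot_add_single, ← t.len]; ring
  · intro j
    rw [mul_f_apply, t.val j, Finsupp.add_apply, Finsupp.single_apply]
    show _ + (Finsupp.single 0 ey : ℤ →₀ V) (j - g.p) = _
    rw [Finsupp.single_apply]
    have e : (0 = j - g.p) ↔ (g.p = j) := by omega
    simp only [e]
    split_ifs with h1
    · push_cast
      simp only [add_smul, one_smul]; abel
    · simp

lemma Tr.lampZ {l n : ℕ} {g : Lamp} (ht : Tr l n g) : Tr l (n + 1) (g * Lz) := by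
  obtain ⟨lo, hi, N, LA, LB, M, h, k, t⟩ := ht
  have hp : (g * Lz).p = g.p := by show g.p + 0 = _; ring
  refine ⟨lo, hi, N, LA, LB + Finsupp.single g.p 1, M, h, k, t.lo0, t.hi0, ?_, ?_, t.Nout, t.Nin, ?_,
    t.zero, t.one, ?_, ?_, ?_⟩
  · rw [hp]; exact t.loP
  · rw [hp]; exact t.Phi
  · intro j; rw [hp]; exact t.par j
  · intro j hj
    have h1 : ¬ g.p = j := by
      have := t.loP
      have := t.Phi
      omega
    rw [Finsupp.add_apply, Finsupp.single_apply, if_neg h1, add_zero]
    exact t.Lout j hj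
  · rw [tot_add_single, ← t.len]; ring
  · intro j
    rw [mul_f_apply, t.val j, Finsupp.add_apply, Finsupp.single_apply]
    show _ + (Finsupp.single 0 ez : ℤ →₀ V) (j - g.p) = _
    rw [Finsupp.single_apply]
    have e : (0 = j - g.p) ↔ (g.p = j) := by omega
    simp only [e]
    split_ifs with h1
    · push_cast
      simp only [add_smul, one_smul]; abel
    · simp

lemma Ly_inv : Ly⁻¹ = Ly := by
  refine Lamp.ext (Finsupp.ext fun j => ?_) (by show -(0:ℤ) = 0; ring)
  rw [inv_f_apply, v_neg]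
  show (Finsupp.single 0 ey : ℤ →₀ V) (j + 0) = _
  rw [add_zero]; rfl

lemma Lz_inv : Lz⁻¹ = Lz := by
  refine Lamp.ext (Finsupp.ext fun j => ?_) (by show -(0:ℤ) = 0; ring)
  rw [inv_f_apply, v_neg]
  show (Finsupp.single 0 ez : ℤ →₀ V) (j + 0) = _
  rw [add_zero]; rfl

lemma Tr.step {l n : ℕ} {g x : Lamp} (ht : Tr l n g) (hx : x ∈ gen l ∨ x⁻¹ ∈ gen l) :
    Tr l (n + 1) (g * x) := by
  rcases hx with hx | hx
  · rcases (mem_gen l x).1 hx with ⟨m, rfl⟩ | rfl | rfl
    · exact ht.right m
    · exact ht.lampY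
    · exact ht.lampZ
  · rcases (mem_gen l _).1 hx with ⟨m, h⟩ | h | h
    · rw [inv_eq_iff_eq_inv] at h
      rw [h]; exact ht.left m
    · rw [inv_eq_iff_eq_inv, Ly_inv] at h
      rw [h]; exact ht.lampY
    · rw [inv_eq_iff_eq_inv, Lz_inv] at h
      rw [h]; exact ht.lampZ

lemma Tr.word {l : ℕ} (w : List Lamp) (hw : ∀ x ∈ w, x ∈ gen l ∨ x⁻¹ ∈ gen l) :
    ∀ {n : ℕ} {g : Lamp}, Tr l n g → Tr l (n + w.length) (g * w.prod) := by
  induction w with
  | nil => intro n g h; simpa using h
  | cons x w ih =>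
    intro n g h
    have := ih (fun y hy => hw y (by simp [hy])) (h.step (hw x (by simp)))
    rw [List.prod_cons, ← mul_assoc, List.length_cons, show n + (w.length + 1) = n + 1 + w.length by ring]
    exact this

lemma tr_of_ball {l n : ℕ} {g : Lamp} (h : g ∈ ball (gen l) n) : ∃ n' ≤ n, Tr l n' g := by
  obtain ⟨w, hw, hS, rfl⟩ := h
  have := Tr.word (l := l) w hS (Tr.one l)
  rw [zero_add, one_mul] at this
  exact ⟨w.length, hw, this⟩

end Pool.Agent.H38.GR
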