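import Mathlib

/-! Sums of products over spins: positivity, disjoint cycles, acyclic sets of edges. -/

namespace Pool.Agent.H38.GR

open Finset

set_option linter.unusedSectionVars false

/-- sign of a spin -/
noncomputable def sg (a : ZMod 2) : ℝ := if a = 0 then 1 else -1

lemma z2 (a : ZMod 2) : a = 0 ∨ a = 1 := by
  revert a; decide

@[simp] lemma sg_zero : sg 0 = 1 := by simp [sg]

@[simp] lemma sg_one : sg 1 = -1 := by
  have : (1 : ZMod 2) ≠ 0 := by decide
  simp [sg, this]

lemma sg_add (a b : ZMod 2) : sg (a + b) = sg a * sg b := by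
  have h11 : (1 : ZMod 2) + 1 = 0 := by decide
  rcases z2 a with rfl | rfl <;> rcases z2 b with rfl | rfl <;> simp [h11]

lemma sg_sq (a : ZMod 2) : sg a * sg a = 1 := by
  rcases z2 a with rfl | rfl <;> simp

section Char

variable {Ω : Type*} [Fintype Ω] [AddGroup Ω]

/-- real characters -/
def IsChar (χ : Ω → ℝ) : Prop := ∀ s t, χ (s + t) = χ s * χ t

lemma IsChar.sum_eq_zero {χ : Ω → ℝ} (h : IsChar χ) (t : Ω) (ht : χ t ≠ 1) : ∑ s, χ s = 0 := by
  have h1 : ∑ s, χ (s + t) = ∑ s, χ s := Equiv.sum_comp (Equiv.addRight t) χ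
  have h2 : ∑ s, χ (s + t) = (∑ s, χ s) * χ t := by
    rw [Finset.sum_mul]
    exact Finset.sum_congr rfl fun s _ => h s t
  have h3 : (∑ s, χ s) * (χ t - 1) = 0 := by
    rw [mul_sub, ← h2, h1]; ring
  rcases mul_eq_zero.1 h3 with h4 | h4
  · exact h4
  · exact absurd (by linarith) ht

lemma IsChar.sum_nonneg {χ : Ω → ℝ} (h : IsChar χ) : 0 ≤ ∑ s, χ s := by
  by_cases hχ : ∀ t, χ t = 1
  · simp [hχ]
  · push Not at hχ
    obtain ⟨t, ht⟩ := hχ
    rw [h.sum_eq_zero t ht]

lemma IsChar.mul {χ χ' : Ω → ℝ} (h : IsChar χ) (h' : IsChar χ') : IsChar (fun s => χ s * χ' s) := by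
  intro s t
  simp only [h s t, h' s t]
  ring

lemma IsChar.one : IsChar (fun _ : Ω => (1 : ℝ)) := by
  intro s t; simp

lemma IsChar.prod {U : Type*} (D : Finset U) (χ : U → Ω → ℝ) (h : ∀ u ∈ D, IsChar (χ u)) :
    IsChar (fun s => ∏ u ∈ D, χ u s) := by
  intro s t
  simp only
  rw [← Finset.prod_mul_distrib]
  exact Finset.prod_congr rfl fun u hu => h u hu s t

/-- functions with nonnegative correlation with every character -/
def PosT (F : Ω → ℝ) : Prop := ∀ χ : Ω → ℝ, IsChar χ → 0 ≤ ∑ s, F s * χ s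

lemma PosT.one : PosT (fun _ : Ω => (1 : ℝ)) := by
  intro χ h
  simpa using h.sum_nonneg

lemma PosT.mul_one_add {F : Ω → ℝ} (hF : PosT F) {χ : Ω → ℝ} (h : IsChar χ) {κ : ℝ} (hκ : 0 ≤ κ) :
    PosT (fun s => F s * (1 + κ * χ s)) := by
  intro ψ hψ
  have e : ∑ s, F s * (1 + κ * χ s) * ψ s = ∑ s, F s * ψ s + κ * ∑ s, F s * (χ s * ψ s) := by
    rw [Finset.mul_sum, ← Finset.sum_add_distrib]
    exact Finset.sum_congr rfl fun s _ => by ring
  rw [e]
  have h1 := hF ψ hψ
  have h2 := hF _ (h.mul hψ)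
  have h3 := mul_nonneg hκ h2
  linarith

lemma PosT.mul_prod {U : Type*} {F : Ω → ℝ} (hF : PosT F) {κ : ℝ} (hκ : 0 ≤ κ)
    (χ : U → Ω → ℝ) (h : ∀ u, IsChar (χ u)) (D : Finset U) :
    PosT (fun s => F s * ∏ u ∈ D, (1 + κ * χ u s)) := by
  classical
  induction D using Finset.induction_on with
  | empty => simpa using hF
  | insert a D ha ih =>
    have := ih.mul_one_add (h a) hκ
    convert this using 2 with s
    rw [Finset.prod_insert ha]; ring

lemma PosT.sum_le_mul_prod {U : Type*} {F : Ω → ℝ} (hF : PosT F) {κ : ℝ} (hκ : 0 ≤ κ)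
    (χ : U → Ω → ℝ) (h : ∀ u, IsChar (χ u)) (D : Finset U) :
    ∑ s, F s ≤ ∑ s, F s * ∏ u ∈ D, (1 + κ * χ u s) := by
  classical
  induction D using Finset.induction_on with
  | empty => simp
  | insert a D ha ih =>
    refine ih.trans ?_
    have e : ∑ s, F s * ∏ u ∈ insert a D, (1 + κ * χ u s) =
        ∑ s, F s * ∏ u ∈ D, (1 + κ * χ u s) +
          κ * ∑ s, (F s * ∏ u ∈ D, (1 + κ * χ u s)) * χ a s := by
      rw [Finset.mul_sum, ← Finset.sum_add_distrib]
      refine Finset.sum_congr rfl fun s _ => ?_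
      rw [Finset.prod_insert ha]; ring
    rw [e]
    have := mul_nonneg hκ ((hF.mul_prod hκ χ h D) (χ a) (h a))
    linarith

/-- a set of edges whose characters multiply to one -/
lemma PosT.cycle {U : Type*} {F : Ω → ℝ} (hF : PosT F) {κ : ℝ} (hκ : 0 ≤ κ)
    (χ : U → Ω → ℝ) (h : ∀ u, IsChar (χ u)) (C : Finset U) (hC : C.Nonempty)
    (hprod : ∀ s, ∏ u ∈ C, χ u s = 1) :
    (1 + κ ^ C.card) * ∑ s, F s ≤ ∑ s, F s * ∏ u ∈ C, (1 + κ * χ u s) := by
  classical
  have e : ∑ s, F s * ∏ u ∈ C, (1 + κ * χ u s) =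
      ∑ D ∈ C.powerset, κ ^ D.card * ∑ s, F s * ∏ u ∈ D, χ u s := by
    simp_rw [Finset.prod_one_add, Finset.mul_sum]
    rw [Finset.sum_comm]
    refine Finset.sum_congr rfl fun D _ => Finset.sum_congr rfl fun s _ => ?_
    rw [Finset.prod_mul_distrib, Finset.prod_const]; ring
  rw [e]
  have hsub : ({∅, C} : Finset (Finset U)) ⊆ C.powerset := by
    intro D hD
    simp only [Finset.mem_insert, Finset.mem_singleton] at hD
    rcases hD with rfl | rfl <;> simp
  refine le_trans (le_of_eq ?_) (Finset.sum_le_sum_of_subset_of_nonneg hsub ?_)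
  · have hne : (∅ : Finset U) ≠ C := hC.ne_empty.symm
    rw [Finset.sum_pair hne]
    simp only [Finset.card_empty, pow_zero, Finset.prod_empty, mul_one, one_mul]
    simp_rw [hprod]
    simp only [mul_one]
    ring
  · intro D _ _
    exact mul_nonneg (pow_nonneg hκ _) (hF _ (IsChar.prod D χ fun u _ => h u))

lemma PosT.cycles {U ι : Type*} [DecidableEq U] {κ : ℝ} (hκ : 0 ≤ κ)
    (χ : U → Ω → ℝ) (h : ∀ u, IsChar (χ u)) (C : ι → Finset U) (m : ℕ) (hm : 0 < m)
    (B : Finset ι) (hcard : ∀ i ∈ B, (C i).card = m)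
    (hprod : ∀ i ∈ B, ∀ s, ∏ u ∈ C i, χ u s = 1)
    (hdisj : (B : Set ι).PairwiseDisjoint C) {F : Ω → ℝ} (hF : PosT F) :
    (1 + κ ^ m) ^ B.card * ∑ s, F s ≤ ∑ s, F s * ∏ u ∈ B.biUnion C, (1 + κ * χ u s) := by
  classical
  induction B using Finset.induction_on generalizing F with
  | empty => simp
  | insert i B hi ih =>
    have hF' : PosT (fun s => F s * ∏ u ∈ C i, (1 + κ * χ u s)) := hF.mul_prod hκ χ h (C i)
    have h1 := ih (fun j hj => hcard j (by simp [hj])) (fun j hj => hprod j (by simp [hj]))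
      (hdisj.subset (by simp)) hF'
    have hne : (C i).Nonempty := by
      rw [← Finset.card_pos, hcard i (by simp)]; exact hm
    have h2 := hF.cycle hκ χ h (C i) hne (hprod i (by simp))
    rw [hcard i (by simp)] at h2
    have hd : Disjoint (C i) (B.biUnion C) := by
      rw [Finset.disjoint_biUnion_right]
      intro j hj
      have hij : i ≠ j := by rintro rfl; exact hi hj
      exact hdisj (by simp) (by simp [hj]) hij
    have e : ∑ s, F s * ∏ u ∈ (insert i B).biUnion C, (1 + κ * χ u s) =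
        ∑ s, (F s * ∏ u ∈ C i, (1 + κ * χ u s)) * ∏ u ∈ B.biUnion C, (1 + κ * χ u s) := by
      refine Finset.sum_congr rfl fun s _ => ?_
      rw [Finset.biUnion_insert, Finset.prod_union hd]; ring
    rw [e, Finset.card_insert_of_notMem hi]
    refine le_trans ?_ h1
    rw [pow_succ, mul_assoc]
    exact mul_le_mul_of_nonneg_left h2 (pow_nonneg (by positivity) _)

end Char

section Acyclic

variable {U : Type*} [Fintype U] [DecidableEq U]

/-- the character of the edge from `u` to `h u` -/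
noncomputable def ech (h : U → U) (u : U) (s : U → ZMod 2) : ℝ := sg (s u) * sg (s (h u))

lemma ech_isChar (h : U → U) (u : U) : IsChar (ech h u) := by
  intro s t
  simp only [ech, Pi.add_apply, sg_add]
  ring

lemma acyclic_sum (h : U → U) (φ : U → ℤ) (D : Finset U) (hD : ∀ u ∈ D, φ u < φ (h u)) (κ : ℝ) :
    ∑ s : U → ZMod 2, ∏ u ∈ D, (1 + κ * ech h u s) = 2 ^ Fintype.card U := by
  have e : ∑ s : U → ZMod 2, ∏ u ∈ D, (1 + κ * ech h u s) =
      ∑ η ∈ D.powerset, κ ^ η.card * ∑ s : U → ZMod 2, ∏ u ∈ η, ech h u s := by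
    simp_rw [Finset.prod_one_add, Finset.mul_sum]
    rw [Finset.sum_comm]
    refine Finset.sum_congr rfl fun η _ => Finset.sum_congr rfl fun s _ => ?_
    rw [Finset.prod_mul_distrib, Finset.prod_const]
  rw [e, Finset.sum_eq_single ∅]
  · simp [ZMod.card]
  · intro η hη hne
    rw [Finset.mem_powerset] at hη
    have hne' : η.Nonempty := Finset.nonempty_iff_ne_empty.2 hne
    obtain ⟨u₀, hu₀, hmin⟩ := Finset.exists_min_image η φ hne'
    have hz : ∑ s : U → ZMod 2, ∏ u ∈ η, ech h u s = 0 := by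
      refine IsChar.sum_eq_zero (IsChar.prod η (ech h) fun u _ => ech_isChar h u)
        (Pi.single u₀ 1) ?_
      have : ∏ u ∈ η, ech h u (Pi.single u₀ 1) = -1 := by
        rw [Finset.prod_eq_single_of_mem u₀ hu₀]
        · have : h u₀ ≠ u₀ := by
            intro h1
            have := hD u₀ (hη hu₀)
            rw [h1] at this
            exact lt_irrefl _ this
          simp [ech, this]
        · intro u hu hne2
          have h2 : h u ≠ u₀ := by
            intro h1
            have h3 := hD u (hη hu)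
            rw [h1] at h3
            exact absurd (hmin u hu) (not_le.2 h3)
          simp [ech, hne2, h2]
      rw [this]; norm_num
    rw [hz, mul_zero]
  · intro h1
    exact absurd (by simp) h1

end Acyclic

end Pool.Agent.H38.GR
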